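import Pool.Agent.Helper224_t4.Mean
import Pool.Agent.Helper224_t4.Pub

/-!
The average of a symplectic form of the torus `ℝ^4 / ℤ^4` over a two-dimensional subtorus.
-/

set_option autoImplicit false
set_option maxSynthPendingDepth 3

open Set MeasureTheory Filter Topology
open scoped ContDiff

noncomputable section

namespace Pool.Agent.Helper224_t4

open Pool.Agent.Helper224_tor

section gen

variable {N : ℕ}

theorem mn_apply {G H : Type} [NormedAddCommGroup G] [NormedSpace ℝ G]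
    [NormedAddCommGroup H] [NormedSpace ℝ H] [CompleteSpace H]
    {F : (Fin N → ℝ) → G →L[ℝ] H} (hF : Continuous F) (v : G) :
    mn F v = mn (fun x => F x v) := by
  unfold mn
  rw [ContinuousLinearMap.integral_apply (int_cont hF)]

theorem mn_apply2 {F : (Fin N → ℝ) → Bf} (hF : Continuous F) (u v : Fin 4 → ℝ) :
    mn F u v = mn (fun x => F x u v) := by
  rw [mn_apply hF, mn_apply (hF.clm_apply continuous_const)]

theorem mn_add3 {f g h : (Fin N → ℝ) → ℝ} (hf : Continuous f) (hg : Continuous g)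
    (hh : Continuous h) : mn f + mn g + mn h = mn (fun x => f x + g x + h x) := by
  have h1 : mn (fun x => (f x + g x) + h x) = mn (fun x => f x + g x) + mn h :=
    integral_add (int_cont (hf.add hg)) (int_cont hh)
  have h2 : mn (fun x => f x + g x) = mn f + mn g := integral_add (int_cont hf) (int_cont hg)
  rw [h1, h2]

end gen

/-- translations by the plane spanned by `P` and `Q` -/
def io (P Q : Fin 4 → ℝ) (s : Fin 2 → ℝ) : Fin 4 → ℝ := s 0 • P + s 1 • Q

/-- the average over the translations -/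
def ta (P Q : Fin 4 → ℝ) (η : (Fin 4 → ℝ) → Bf) (x : Fin 4 → ℝ) : Bf :=
  mn (fun s : Fin 2 → ℝ => η (x + io P Q s))

theorem io_smooth (P Q : Fin 4 → ℝ) : ContDiff ℝ ∞ (io P Q) := by
  unfold io
  fun_prop

theorem io_has (P Q : Fin 4 → ℝ) (s : Fin 2 → ℝ) : HasFDerivAt (io P Q)
    (((ContinuousLinearMap.proj (R := ℝ) (φ := fun _ : Fin 2 => ℝ) 0).smulRight P) +
      ((ContinuousLinearMap.proj (R := ℝ) (φ := fun _ : Fin 2 => ℝ) 1).smulRight Q)) s := by
  exact (((ContinuousLinearMap.proj (R := ℝ) (φ := fun _ : Fin 2 => ℝ) 0).smulRight P) +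
      ((ContinuousLinearMap.proj (R := ℝ) (φ := fun _ : Fin 2 => ℝ) 1).smulRight Q)).hasFDerivAt

section

variable {η : (Fin 4 → ℝ) → Bf} (P Q : Fin 4 → ℝ)

theorem ta_has (hη : ContDiff ℝ ∞ η) (x : Fin 4 → ℝ) :
    HasFDerivAt (ta P Q η) (mn (fun s : Fin 2 → ℝ => fderiv ℝ η (x + io P Q s))) x := by
  have hio := io_smooth P Q
  have h1 : ContDiff ℝ ∞ (fun q : (Fin 2 → ℝ) × (Fin 4 → ℝ) => η (q.2 + io P Q q.1)) := by
    fun_prop
  have h2 := avg_hasFDerivAt (F := fun q : (Fin 2 → ℝ) × (Fin 4 → ℝ) => η (q.2 + io P Q q.1))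
    isOpen_univ h1.contDiffOn (mem_univ x)
  have h3 : avg (par fun q : (Fin 2 → ℝ) × (Fin 4 → ℝ) => η (q.2 + io P Q q.1)) x =
      mn (fun s : Fin 2 → ℝ => fderiv ℝ η (x + io P Q s)) := by
    unfold avg mn
    congr 1
    funext s
    have h5 : HasFDerivAt (fun q : (Fin 2 → ℝ) × (Fin 4 → ℝ) => io P Q q.1)
        ((fderiv ℝ (io P Q) s).comp (ContinuousLinearMap.fst ℝ (Fin 2 → ℝ) (Fin 4 → ℝ)))
        (s, x) :=
      HasFDerivAt.comp (g := io P Q) (f := (Prod.fst : (Fin 2 → ℝ) × (Fin 4 → ℝ) → (Fin 2 → ℝ)))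
        (s, x) ((hio.differentiable (by simp)) s).hasFDerivAt hasFDerivAt_fst
    have h4 : HasFDerivAt (fun q : (Fin 2 → ℝ) × (Fin 4 → ℝ) => η (q.2 + io P Q q.1))
        ((fderiv ℝ η (x + io P Q s)).comp (ContinuousLinearMap.snd ℝ (Fin 2 → ℝ) (Fin 4 → ℝ) +
          (fderiv ℝ (io P Q) s).comp
            (ContinuousLinearMap.fst ℝ (Fin 2 → ℝ) (Fin 4 → ℝ)))) (s, x) :=
      HasFDerivAt.comp (g := η) (s, x) ((hη.differentiable (by simp)) (x + io P Q s)).hasFDerivAt
        (hasFDerivAt_snd.add h5)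
    unfold par
    rw [h4.fderiv]
    ext v
    simp
  rw [h3] at h2
  exact h2

theorem ta_smooth (hη : ContDiff ℝ ∞ η) : ContDiff ℝ ∞ (ta P Q η) := by
  have hio := io_smooth P Q
  have h1 : ContDiff ℝ ∞ (fun q : (Fin 2 → ℝ) × (Fin 4 → ℝ) => η (q.2 + io P Q q.1)) := by
    fun_prop
  rw [← contDiffOn_univ]
  exact avg_smooth (F := fun q : (Fin 2 → ℝ) × (Fin 4 → ℝ) => η (q.2 + io P Q q.1))
    isOpen_univ h1.contDiffOn

theorem io_cont (x : Fin 4 → ℝ) {G : Type} [TopologicalSpace G] {F : (Fin 4 → ℝ) → G}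
    (hF : Continuous F) : Continuous (fun s : Fin 2 → ℝ => F (x + io P Q s)) :=
  hF.comp (continuous_const.add (io_smooth P Q).continuous)

theorem ta_inv (hη : ContDiff ℝ ∞ η) (hP : ∀ x, η (x + P) = η x) (hQ : ∀ x, η (x + Q) = η x)
    (x : Fin 4 → ℝ) : fderiv ℝ (ta P Q η) x P = 0 ∧ fderiv ℝ (ta P Q η) x Q = 0 := by
  have hio := io_smooth P Q
  have h1 : ContDiff ℝ ∞ (fun s : Fin 2 → ℝ => η (x + io P Q s)) := by fun_prop
  have h2 : Per (fun s : Fin 2 → ℝ => η (x + io P Q s)) := by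
    intro s i
    change η (x + io P Q (s + Pi.single i 1)) = η (x + io P Q s)
    have key : ∀ j : Fin 2, j = 0 ∨ j = 1 := by intro j; fin_cases j <;> simp
    rcases key i with rfl | rfl
    · rw [← hP (x + io P Q s)]
      congr 1
      simp [io, add_smul]
      abel
    · rw [← hQ (x + io P Q s)]
      congr 1
      simp [io, add_smul]
      abel
  have h3 : ∀ (s : Fin 2 → ℝ) (a : Fin 2 → ℝ), fderiv ℝ (fun s : Fin 2 → ℝ => η (x + io P Q s)) s a =
      fderiv ℝ η (x + io P Q s) (a 0 • P + a 1 • Q) := by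
    intro s a
    have h4 : HasFDerivAt (fun s : Fin 2 → ℝ => η (x + io P Q s)) _ s :=
      HasFDerivAt.comp (g := η) s ((hη.differentiable (by simp)) (x + io P Q s)).hasFDerivAt
        ((io_has P Q s).const_add x)
    rw [h4.fderiv]
    simp
  have hc : Continuous (fun s : Fin 2 → ℝ => fderiv ℝ η (x + io P Q s)) :=
    io_cont P Q x (hη.continuous_fderiv (by simp))
  constructor
  · rw [(ta_has P Q hη x).fderiv, mn_apply hc]
    have h5 := mn_deriv h1 h2 (Pi.single 0 1)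
    simp only [h3] at h5
    simpa using h5
  · rw [(ta_has P Q hη x).fderiv, mn_apply hc]
    have h5 := mn_deriv h1 h2 (Pi.single 1 1)
    simp only [h3] at h5
    simpa using h5

theorem ta_per {a : Fin 4 → ℝ} (ha : ∀ x, η (x + a) = η x) (x : Fin 4 → ℝ) :
    ta P Q η (x + a) = ta P Q η x := by
  unfold ta
  congr 1
  funext s
  rw [← ha (x + io P Q s)]
  congr 1
  abel

theorem ta_apply (hη : Continuous η) (x u v : Fin 4 → ℝ) :
    ta P Q η x u v = mn (fun s : Fin 2 → ℝ => η (x + io P Q s) u v) := by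
  unfold ta
  rw [mn_apply2 (io_cont P Q x hη)]

theorem ta_alt (hη : Continuous η) (h : ∀ x u v : Fin 4 → ℝ, η x u v = -(η x v u))
    (x u v : Fin 4 → ℝ) : ta P Q η x u v = -(ta P Q η x v u) := by
  rw [ta_apply P Q hη, ta_apply P Q hη]
  unfold mn
  rw [← integral_neg]
  congr 1
  funext s
  exact h _ _ _

theorem ta_closed (hη : ContDiff ℝ ∞ η) (h : ∀ x u v w : Fin 4 → ℝ,
      fderiv ℝ η x u v w + fderiv ℝ η x v w u + fderiv ℝ η x w u v = 0)
    (x u v w : Fin 4 → ℝ) : fderiv ℝ (ta P Q η) x u v w + fderiv ℝ (ta P Q η) x v w u +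
      fderiv ℝ (ta P Q η) x w u v = 0 := by
  have hc : Continuous (fun s : Fin 2 → ℝ => fderiv ℝ η (x + io P Q s)) :=
    io_cont P Q x (hη.continuous_fderiv (by simp))
  have e : ∀ a b c : Fin 4 → ℝ, fderiv ℝ (ta P Q η) x a b c =
      mn (fun s : Fin 2 → ℝ => fderiv ℝ η (x + io P Q s) a b c) := by
    intro a b c
    rw [(ta_has P Q hη x).fderiv, mn_apply hc, mn_apply2 (hc.clm_apply continuous_const)]
  have c3 : ∀ a b c : Fin 4 → ℝ, Continuous
      (fun s : Fin 2 → ℝ => fderiv ℝ η (x + io P Q s) a b c) := fun a b c =>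
    ((hc.clm_apply continuous_const).clm_apply continuous_const).clm_apply continuous_const
  rw [e, e, e, mn_add3 (c3 _ _ _) (c3 _ _ _) (c3 _ _ _)]
  simp only [h]
  exact mn_const 0

theorem ta_mean (hη : ContDiff ℝ ∞ η) (hper : Per η) : mn (ta P Q η) = mn η := by
  have hc : Continuous (fun q : (Fin 4 → ℝ) × (Fin 2 → ℝ) => η (q.1 + io P Q q.2)) := by
    have := (io_smooth P Q).continuous
    have h2 := hη.continuous
    fun_prop
  have h1 := mn_swap (F := fun q : (Fin 4 → ℝ) × (Fin 2 → ℝ) => η (q.1 + io P Q q.2)) hc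
  have h2 : mn (ta P Q η) = mn (fun x : Fin 4 → ℝ => mn (fun s : Fin 2 → ℝ =>
      η (x + io P Q s))) := rfl
  rw [h2, h1]
  simp only [mn_shift hη hper]
  exact mn_const _

end

end Pool.Agent.Helper224_t4
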