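import Pool.Agent.Helper224_t4.Path4

/-!
The paths of symplectic forms.
-/

set_option autoImplicit false
set_option maxSynthPendingDepth 3

open Set MeasureTheory Filter Topology
open scoped ContDiff

noncomputable section

namespace Pool.Agent.Helper224_t4

theorem wd_smooth {E : Type} [NormedAddCommGroup E] [NormedSpace ℝ E]
    {f g : E → (Fin 4 → ℝ) →L[ℝ] ℝ} (hf : ContDiff ℝ ∞ f) (hg : ContDiff ℝ ∞ g) :
    ContDiff ℝ ∞ (fun x => wd (f x) (g x)) := by
  unfold wd
  exact (hf.smulRight hg).sub (hg.smulRight hf)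

section

variable {A : Bf} {P Q : Fin 4 → ℝ} {σ : (Fin 4 → ℝ) → Bf} (h : InvS A P Q σ)

include h

theorem p2_joint : ContDiff ℝ ∞ (fun q : ℝ × (Fin 4 → ℝ) => p2 A P Q σ q.1 q.2) := by
  have hσ : ContDiff ℝ ∞ (fun q : ℝ × (Fin 4 → ℝ) => σ q.2) := h.smooth.comp contDiff_snd
  have hP : ContDiff ℝ ∞ (fun q : ℝ × (Fin 4 → ℝ) => σ q.2 P - A P) :=
    (al_smooth h P).comp contDiff_snd
  have hQ : ContDiff ℝ ∞ (fun q : ℝ × (Fin 4 → ℝ) => σ q.2 Q - A Q) :=
    (al_smooth h Q).comp contDiff_snd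
  have hw := wd_smooth hP hQ
  have h1 : ContDiff ℝ ∞ (fun q : ℝ × (Fin 4 → ℝ) => (1 - q.1)) := by fun_prop
  have h2 : ContDiff ℝ ∞ (fun q : ℝ × (Fin 4 → ℝ) => q.1 * (1 - q.1) * (A P Q)⁻¹) := by fun_prop
  exact ((h1.smul hσ).add (contDiff_fst.smul contDiff_const)).sub (h2.smul hw)

theorem p2_smooth (v : ℝ) : ContDiff ℝ ∞ (p2 A P Q σ v) :=
  (p2_joint h).comp (contDiff_const.prodMk contDiff_id)

theorem p2_deriv (v : ℝ) (x a u w : Fin 4 → ℝ) :
    fderiv ℝ (p2 A P Q σ v) x a u w = (1 - v) * fderiv ℝ σ x a u w -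
      (v * (1 - v) * (A P Q)⁻¹) *
      ((fderiv ℝ σ x a P u * (σ x Q w - A Q w) + (σ x P u - A P u) * fderiv ℝ σ x a Q w) -
       (fderiv ℝ σ x a Q u * (σ x P w - A P w) + (σ x Q u - A Q u) * fderiv ℝ σ x a P w)) := by
  rw [← fev2' (p2_smooth h v)]
  have e : (fun x => p2 A P Q σ v x u w) = fun x => ((1 - v) * σ x u w + v * A u w) -
      (v * (1 - v) * (A P Q)⁻¹) *
      ((σ x P u - A P u) * (σ x Q w - A Q w) - (σ x Q u - A Q u) * (σ x P w - A P w)) :=
    funext fun x => p2_apply A P Q σ v x u w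
  rw [e]
  have hPu := (fev2 h.smooth x P u).sub_const (A P u)
  have hPw := (fev2 h.smooth x P w).sub_const (A P w)
  have hQu := (fev2 h.smooth x Q u).sub_const (A Q u)
  have hQw := (fev2 h.smooth x Q w).sub_const (A Q w)
  have h1 : HasFDerivAt (fun x => ((1 - v) * σ x u w + v * A u w) -
      (v * (1 - v) * (A P Q)⁻¹) *
      ((σ x P u - A P u) * (σ x Q w - A Q w) - (σ x Q u - A Q u) * (σ x P w - A P w))) _ x :=
    (((fev2 h.smooth x u w).const_mul (1 - v)).add_const (v * A u w)).sub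
      (((hPu.mul hQw).sub (hQu.mul hPw)).const_mul (v * (1 - v) * (A P Q)⁻¹))
  rw [h1.fderiv]
  change (1 - v) * (fderiv ℝ σ x a u w) - (v * (1 - v) * (A P Q)⁻¹) *
    (((σ x P u - A P u) * (fderiv ℝ σ x a Q w) + (σ x Q w - A Q w) * (fderiv ℝ σ x a P u)) -
     ((σ x Q u - A Q u) * (fderiv ℝ σ x a P w) + (σ x P w - A P w) * (fderiv ℝ σ x a Q u))) = _
  ring

theorem p2_closed (v : ℝ) (x a u w : Fin 4 → ℝ) :
    fderiv ℝ (p2 A P Q σ v) x a u w + fderiv ℝ (p2 A P Q σ v) x u w a +
      fderiv ℝ (p2 A P Q σ v) x w a u = 0 := by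
  rw [p2_deriv h, p2_deriv h, p2_deriv h]
  have h0 := h.closed x a u w
  rw [symP h x u a, symP h x w u, symP h x w a, symQ h x u a, symQ h x w u, symQ h x w a]
  linear_combination (1 - v) * h0

theorem p2_symp (hf : A P Q ≠ 0) {v : ℝ} (hv : v ∈ Icc (0 : ℝ) 1) :
    IsSymp A (p2 A P Q σ v) where
  smooth := p2_smooth h v
  per := fun x n => by
    unfold p2
    rw [h.perZ x n]
  alt := p2_alt h v
  closed := p2_closed h v
  nondeg := p2_nondeg h hf hv
  mean := p2_mean h v

omit h in
theorem p2_zero (x : Fin 4 → ℝ) : p2 A P Q σ 0 x = σ x := by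
  unfold p2
  simp

omit h in
theorem p2_one (x : Fin 4 → ℝ) : p2 A P Q σ 1 x = A := by
  unfold p2
  simp

end

theorem per_of {η : (Fin 4 → ℝ) → Bf}
    (h : ∀ (x : Fin 4 → ℝ) (n : Fin 4 → ℤ), η (x + fun i => (n i : ℝ)) = η x) : Per η := by
  intro x i
  have := h x (Pi.single i 1)
  rw [← this]
  congr 2
  funext j
  by_cases hj : j = i
  · subst hj; simp
  · simp [Pi.single_apply, hj]

section

variable {A : Bf} {p q : Fin 4 → ℤ} {η : (Fin 4 → ℝ) → Bf} (h : IsSymp A η)
  (hpos : PosOn p q η)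

include h

theorem mn_eq : mn η = A := by
  ext u v
  rw [mn_apply2 h.smooth.continuous]
  exact h.mean u v

include hpos

theorem ta_pos {x v : Fin 4 → ℝ} (hv : v ≠ 0) :
    ∃ w, 0 < η x v w ∧ 0 < ta (rl p) (rl q) η x v w := by
  obtain ⟨w, hw⟩ := hpos x v hv
  refine ⟨w, hw.1, ?_⟩
  rw [ta_apply _ _ h.smooth.continuous]
  exact hw.2

theorem ta_invS : InvS A (rl p) (rl q) (ta (rl p) (rl q) η) where
  smooth := ta_smooth _ _ h.smooth
  per := fun x i => ta_per _ _ (fun x => per_of h.per x i) x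
  perZ := fun x n => ta_per _ _ (fun x => h.per x n) x
  alt := ta_alt _ _ h.smooth.continuous h.alt
  closed := ta_closed _ _ h.smooth h.closed
  hP := fun x => (ta_inv _ _ h.smooth (fun x => h.per x p) (fun x => h.per x q) x).1
  hQ := fun x => (ta_inv _ _ h.smooth (fun x => h.per x p) (fun x => h.per x q) x).2
  mean := by rw [ta_mean _ _ h.smooth (per_of h.per), mn_eq h]
  nondeg := by
    intro x v hv
    by_contra hne
    obtain ⟨w, _, hw⟩ := ta_pos h hpos (x := x) hne
    exact hw.ne' (hv w)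

/-- the first path -/
theorem q1_symp {u : ℝ} (hu : u ∈ Icc (0 : ℝ) 1) :
    IsSymp A (fun x => (1 - u) • η x + u • ta (rl p) (rl q) η x) := by
  have hs := ta_invS h hpos
  have hd : ∀ x a b c : Fin 4 → ℝ,
      fderiv ℝ (fun x => (1 - u) • η x + u • ta (rl p) (rl q) η x) x a b c =
      (1 - u) * fderiv ℝ η x a b c + u * fderiv ℝ (ta (rl p) (rl q) η) x a b c := by
    intro x a b c
    have h1 : HasFDerivAt (fun x => (1 - u) • η x + u • ta (rl p) (rl q) η x) _ x :=
      ((((h.smooth.differentiable (by simp)) x).hasFDerivAt).const_smul (1 - u)).add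
        ((((hs.smooth.differentiable (by simp)) x).hasFDerivAt).const_smul u)
    rw [h1.fderiv]; rfl
  refine ⟨?_, ?_, ?_, ?_, ?_, ?_⟩
  · exact (h.smooth.const_smul (1 - u)).add (hs.smooth.const_smul u)
  · intro x n
    simp only [h.per x n, hs.perZ x n]
  · intro x a b
    change (1 - u) * η x a b + u * ta (rl p) (rl q) η x a b =
      -((1 - u) * η x b a + u * ta (rl p) (rl q) η x b a)
    rw [h.alt x a b, hs.alt x a b]
    ring
  · intro x a b c
    rw [hd, hd, hd]
    have h1 := h.closed x a b c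
    have h2 := hs.closed x a b c
    linear_combination (1 - u) * h1 + u * h2
  · intro x v hv
    by_contra hne
    obtain ⟨w, h1, h2⟩ := ta_pos h hpos (x := x) hne
    have h3 : (1 - u) * η x v w + u * ta (rl p) (rl q) η x v w = 0 := hv w
    have h4 := hu.1
    have h5 := hu.2
    rcases eq_or_lt_of_le h4 with rfl | h6
    · simp only [sub_zero, one_mul, zero_mul, add_zero] at h3
      exact h1.ne' h3
    · have : 0 < u * ta (rl p) (rl q) η x v w := mul_pos h6 h2
      have : 0 ≤ (1 - u) * η x v w := mul_nonneg (by linarith) h1.le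
      linarith
  · intro a b
    have hc1 : Continuous (fun x => η x a b) :=
      (h.smooth.continuous.clm_apply continuous_const).clm_apply continuous_const
    have hc2 : Continuous (fun x => ta (rl p) (rl q) η x a b) :=
      (hs.smooth.continuous.clm_apply continuous_const).clm_apply continuous_const
    have e : (fun x => ((1 - u) • η x + u • ta (rl p) (rl q) η x) a b) =
        fun x => ((0 : ℝ) + (1 - u) * η x a b) + u * ta (rl p) (rl q) η x a b := by
      funext x
      change (1 - u) * η x a b + u * ta (rl p) (rl q) η x a b = _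
      ring
    have k0 : Continuous (fun _ : Fin 4 → ℝ => (0 : ℝ)) := continuous_const
    have h1 : mn (fun x => ((1 - u) • η x + u • ta (rl p) (rl q) η x) a b) = A a b := by
      rw [e, mn_lin (cadd k0 hc1 (1 - u)) hc2, mn_lin k0 hc1, mn_const, mean_ev hs]
      have : mn (fun x => η x a b) = A a b := h.mean a b
      rw [this]
      ring
    exact h1

/-- the path from `η` to `A` -/
def ga (A : Bf) (P Q : Fin 4 → ℝ) (η : (Fin 4 → ℝ) → Bf) (t : ℝ) (x : Fin 4 → ℝ) : Bf :=
  (1 - Real.smoothTransition (3 * t)) • (η x - ta P Q η x) +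
    p2 A P Q (ta P Q η) (Real.smoothTransition (3 * t - 2)) x

theorem ga_joint : ContDiff ℝ ∞ (fun y : ℝ × (Fin 4 → ℝ) => ga A (rl p) (rl q) η y.1 y.2) := by
  have hs := ta_invS h hpos
  have h1 : ContDiff ℝ ∞ (fun y : ℝ × (Fin 4 → ℝ) => 1 - Real.smoothTransition (3 * y.1)) := by
    refine contDiff_const.sub (Real.smoothTransition.contDiff.comp ?_)
    fun_prop
  have h2 : ContDiff ℝ ∞ (fun y : ℝ × (Fin 4 → ℝ) => Real.smoothTransition (3 * y.1 - 2)) := by
    refine Real.smoothTransition.contDiff.comp ?_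
    fun_prop
  have h3 : ContDiff ℝ ∞ (fun y : ℝ × (Fin 4 → ℝ) => η y.2 - ta (rl p) (rl q) η y.2) :=
    (h.smooth.sub hs.smooth).comp contDiff_snd
  exact (h1.smul h3).add ((p2_joint hs).comp (h2.prodMk contDiff_snd))

theorem ga_zero : ga A (rl p) (rl q) η 0 = η := by
  funext x
  unfold ga
  rw [mul_zero, Real.smoothTransition.zero, Real.smoothTransition.zero_of_nonpos (by norm_num),
    p2_zero]
  simp

theorem ga_one : ga A (rl p) (rl q) η 1 = fun _ => A := by
  funext x
  unfold ga
  rw [Real.smoothTransition.one_of_one_le (by norm_num),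
    Real.smoothTransition.one_of_one_le (by norm_num), p2_one]
  simp

theorem ga_symp (hf : A (rl p) (rl q) ≠ 0) (t : ℝ) : IsSymp A (ga A (rl p) (rl q) η t) := by
  have hs := ta_invS h hpos
  have hI : ∀ s : ℝ, Real.smoothTransition s ∈ Icc (0 : ℝ) 1 := fun s =>
    ⟨Real.smoothTransition.nonneg s, Real.smoothTransition.le_one s⟩
  rcases le_total t (1 / 2) with ht | ht
  · have e : ga A (rl p) (rl q) η t = fun x => (1 - Real.smoothTransition (3 * t)) • η x +
        Real.smoothTransition (3 * t) • ta (rl p) (rl q) η x := by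
      funext x
      unfold ga
      rw [Real.smoothTransition.zero_of_nonpos (x := 3 * t - 2) (by linarith), p2_zero]
      module
    rw [e]
    exact q1_symp h hpos (hI _)
  · have e : ga A (rl p) (rl q) η t =
        p2 A (rl p) (rl q) (ta (rl p) (rl q) η) (Real.smoothTransition (3 * t - 2)) := by
      funext x
      unfold ga
      rw [Real.smoothTransition.one_of_one_le (x := 3 * t) (by linarith)]
      simp
    rw [e]
    exact p2_symp hs hf (hI _)

end

/-- The main result. -/
theorem main {A : Bf} {η₀ η₁ : (Fin 4 → ℝ) → Bf} (h₀ : IsSymp A η₀) (h₁ : IsSymp A η₁)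
    (t₀ : TorusPos A η₀) (t₁ : TorusPos A η₁) :
    ∃ Ω : ℝ → (Fin 4 → ℝ) → Bf,
      ContDiff ℝ ∞ (fun y : ℝ × (Fin 4 → ℝ) => Ω y.1 y.2) ∧
      Ω 0 = η₀ ∧ Ω 1 = η₁ ∧ ∀ t ∈ Icc (0 : ℝ) 1, IsSymp A (Ω t) := by
  obtain ⟨p, q, hf, hpos⟩ := t₀
  obtain ⟨p', q', hf', hpos'⟩ := t₁
  refine ⟨fun t x => ga A (rl p) (rl q) η₀ (Real.smoothTransition (3 * t)) x +
    ga A (rl p') (rl q') η₁ (1 - Real.smoothTransition (3 * t - 2)) x - A, ?_, ?_, ?_, ?_⟩
  · have h1 : ContDiff ℝ ∞ (fun y : ℝ × (Fin 4 → ℝ) => Real.smoothTransition (3 * y.1)) := by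
      refine Real.smoothTransition.contDiff.comp ?_
      fun_prop
    have h2 : ContDiff ℝ ∞
        (fun y : ℝ × (Fin 4 → ℝ) => 1 - Real.smoothTransition (3 * y.1 - 2)) := by
      refine contDiff_const.sub (Real.smoothTransition.contDiff.comp ?_)
      fun_prop
    exact (((ga_joint h₀ hpos).comp (h1.prodMk contDiff_snd)).add
      ((ga_joint h₁ hpos').comp (h2.prodMk contDiff_snd))).sub contDiff_const
  · funext x
    have e1 : Real.smoothTransition (3 * (0 : ℝ)) = 0 := by
      rw [mul_zero, Real.smoothTransition.zero]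
    have e2 : Real.smoothTransition (3 * (0 : ℝ) - 2) = 0 :=
      Real.smoothTransition.zero_of_nonpos (by norm_num)
    simp only [e1, e2, sub_zero]
    rw [ga_zero h₀ hpos, ga_one h₁ hpos']
    simp
  · funext x
    have e1 : Real.smoothTransition (3 * (1 : ℝ)) = 1 :=
      Real.smoothTransition.one_of_one_le (by norm_num)
    have e2 : Real.smoothTransition (3 * (1 : ℝ) - 2) = 1 :=
      Real.smoothTransition.one_of_one_le (by norm_num)
    simp only [e1, e2, sub_self]
    rw [ga_one h₀ hpos, ga_zero h₁ hpos']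
    simp
  · intro t _
    rcases le_total t (1 / 2) with ht | ht
    · have e2 : Real.smoothTransition (3 * t - 2) = 0 :=
        Real.smoothTransition.zero_of_nonpos (by linarith)
      have e : (fun x => ga A (rl p) (rl q) η₀ (Real.smoothTransition (3 * t)) x +
          ga A (rl p') (rl q') η₁ (1 - Real.smoothTransition (3 * t - 2)) x - A) =
          ga A (rl p) (rl q) η₀ (Real.smoothTransition (3 * t)) := by
        funext x
        rw [e2, sub_zero, ga_one h₁ hpos']
        simp
      have h5 := ga_symp h₀ hpos hf (Real.smoothTransition (3 * t))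
      rw [← e] at h5
      exact h5
    · have e1 : Real.smoothTransition (3 * t) = 1 :=
        Real.smoothTransition.one_of_one_le (by linarith)
      have e : (fun x => ga A (rl p) (rl q) η₀ (Real.smoothTransition (3 * t)) x +
          ga A (rl p') (rl q') η₁ (1 - Real.smoothTransition (3 * t - 2)) x - A) =
          ga A (rl p') (rl q') η₁ (1 - Real.smoothTransition (3 * t - 2)) := by
        funext x
        rw [e1, ga_one h₀ hpos]
        simp
      have h5 := ga_symp h₁ hpos' hf' (1 - Real.smoothTransition (3 * t - 2))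
      rw [← e] at h5
      exact h5

end Pool.Agent.Helper224_t4
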