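import Pool.Agent.Helper224_t4.PubS
import Pool.Agent.Helper224_t4.Fin4

/-!
The public definitions agree with the internal ones.
-/

set_option autoImplicit false

open Set
open scoped ContDiff

noncomputable section

namespace Pool.Agent.Helper224_t4

theorem isSymp_iff (A : Bf) (η : (Fin 4 → ℝ) → Bf) :
    Pool.Agent.Helper224_t4P.IsSymp A η ↔ IsSymp A η :=
  ⟨fun h => ⟨h.1, h.2, h.3, h.4, h.5, h.6⟩, fun h => ⟨h.1, h.2, h.3, h.4, h.5, h.6⟩⟩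

theorem torusPos_iff (A : Bf) (η : (Fin 4 → ℝ) → Bf) :
    Pool.Agent.Helper224_t4P.TorusPos A η ↔ TorusPos A η := Iff.rfl

theorem main' {A : Bf} {η₀ η₁ : (Fin 4 → ℝ) → Bf} (h₀ : Pool.Agent.Helper224_t4P.IsSymp A η₀)
    (h₁ : Pool.Agent.Helper224_t4P.IsSymp A η₁)
    (t₀ : Pool.Agent.Helper224_t4P.TorusPos A η₀) (t₁ : Pool.Agent.Helper224_t4P.TorusPos A η₁) :
    ∃ Ω : ℝ → (Fin 4 → ℝ) → Bf, Pool.Agent.Helper224_t4P.SmoothFamily Ω ∧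
      Ω 0 = η₀ ∧ Ω 1 = η₁ ∧
      ∀ t ∈ Icc (0 : ℝ) 1, Pool.Agent.Helper224_t4P.IsSymp A (Ω t) := by
  obtain ⟨Ω, h1, h2, h3, h4⟩ := main ((isSymp_iff A η₀).1 h₀) ((isSymp_iff A η₁).1 h₁)
    ((torusPos_iff A η₀).1 t₀) ((torusPos_iff A η₁).1 t₁)
  exact ⟨Ω, h1, h2, h3, fun t ht => (isSymp_iff A _).2 (h4 t ht)⟩

end Pool.Agent.Helper224_t4
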