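import Pool.Agent.Helper224_t4.PubS

/-!
Nondegenerate forms on the torus `ℝ^4 / ℤ^4` and orientations: definitions used in the statement of
the result.
-/

set_option autoImplicit false

open Set MeasureTheory
open scoped ContDiff

noncomputable section

namespace Pool.Agent.Helper224_t4P

/-- basis vectors -/
def eb (i : Fin 4) : Fin 4 → ℝ := Pi.single i 1

/-- The Pfaffian; its sign is the sign of `β ∧ β`. -/
def pf (β : Bf) : ℝ :=
  ev β (eb 0) (eb 1) * ev β (eb 2) (eb 3) - ev β (eb 0) (eb 2) * ev β (eb 1) (eb 3) +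
    ev β (eb 0) (eb 3) * ev β (eb 1) (eb 2)

/-- families of forms on `ℝ^4` which are jointly continuous in the parameter and the point -/
def ContFamily (Ω : ℝ → (Fin 4 → ℝ) → Bf) : Prop :=
  Continuous (fun y : ℝ × (Fin 4 → ℝ) => Ω y.1 y.2)

/-- nondegenerate two-forms on the torus `ℝ^4 / ℤ^4` (not required to be closed) -/
structure IsNondeg (η : (Fin 4 → ℝ) → Bf) : Prop where
  per : ∀ (x : Fin 4 → ℝ) (n : Fin 4 → ℤ), η (x + rl n) = η x
  alt : ∀ x u v : Fin 4 → ℝ, ev (η x) u v = -ev (η x) v u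
  nondeg : ∀ x v : Fin 4 → ℝ, (∀ w : Fin 4 → ℝ, ev (η x) v w = 0) → v = 0

end Pool.Agent.Helper224_t4P
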