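import Pool.Agent.Helper224_t4.Pf
import Pool.Agent.Helper224_t4.Bridge
import Pool.Agent.Helper224_t4.PubH

/-!
Homotopies through nondegenerate forms.
-/

set_option autoImplicit false
set_option maxSynthPendingDepth 3

open Set Filter Topology
open scoped ContDiff unitInterval

noncomputable section

namespace Pool.Agent.Helper224_t4

/-- the square of the length -/
def nn (x : Fin 3 → ℝ) : ℝ := x 0 ^ 2 + x 1 ^ 2 + x 2 ^ 2

theorem nn_pos {x : Fin 3 → ℝ} (h : 0 < nn x) : x ≠ 0 := by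
  rintro rfl
  simp [nn] at h

theorem nn_nonneg (x : Fin 3 → ℝ) : 0 ≤ nn x := by
  unfold nn; positivity

theorem nn_pos' {x : Fin 3 → ℝ} (h : x ≠ 0) : 0 < nn x := by
  rcases (nn_nonneg x).lt_or_eq with h1 | h1
  · exact h1
  · exfalso
    apply h
    unfold nn at h1
    have h0 : x 0 = 0 := by nlinarith [sq_nonneg (x 0), sq_nonneg (x 1), sq_nonneg (x 2)]
    have h2 : x 1 = 0 := by nlinarith [sq_nonneg (x 0), sq_nonneg (x 1), sq_nonneg (x 2)]
    have h3 : x 2 = 0 := by nlinarith [sq_nonneg (x 0), sq_nonneg (x 1), sq_nonneg (x 2)]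
    funext i
    fin_cases i
    · exact h0
    · exact h2
    · exact h3

/-- the cone -/
def cone : Set ((Fin 3 → ℝ) × (Fin 3 → ℝ)) := {z | nn z.2 < nn z.1}

theorem cone_retract {z : (Fin 3 → ℝ) × (Fin 3 → ℝ)} (hz : z ∈ cone) :
    JoinedIn cone z (z.1, 0) := by
  refine JoinedIn.ofLine (f := fun t : ℝ => (z.1, (1 - t) • z.2)) (by fun_prop) (by simp)
    (by simp) ?_
  rintro _ ⟨t, ht, rfl⟩
  change nn ((1 - t) • z.2) < nn z.1
  have h1 : nn ((1 - t) • z.2) = (1 - t) ^ 2 * nn z.2 := by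
    simp [nn]; ring
  have h2 : (1 - t) ^ 2 ≤ 1 := by
    have := ht.1
    have := ht.2
    nlinarith
  have h3 := nn_nonneg z.2
  have h4 : nn z.2 < nn z.1 := hz
  rw [h1]
  nlinarith

theorem cone_joined {z z' : (Fin 3 → ℝ) × (Fin 3 → ℝ)} (hz : z ∈ cone) (hz' : z' ∈ cone) :
    JoinedIn cone z z' := by
  have k1 : z.1 ≠ 0 := nn_pos (lt_of_le_of_lt (nn_nonneg z.2) hz)
  have k2 : z'.1 ≠ 0 := nn_pos (lt_of_le_of_lt (nn_nonneg z'.2) hz')
  have hpc : IsPathConnected ({0}ᶜ : Set (Fin 3 → ℝ)) :=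
    isPathConnected_compl_singleton_of_one_lt_rank (by simp) 0
  obtain ⟨γ, hγ⟩ := hpc.joinedIn z.1 k1 z'.1 k2
  have h2 : JoinedIn cone (z.1, (0 : Fin 3 → ℝ)) (z'.1, 0) := by
    refine ⟨γ.map (f := fun x : Fin 3 → ℝ => (x, (0 : Fin 3 → ℝ))) (by fun_prop), fun t => ?_⟩
    change nn (0 : Fin 3 → ℝ) < nn (γ t)
    have h0 : nn (0 : Fin 3 → ℝ) = 0 := by simp [nn]
    rw [h0]
    exact nn_pos' (hγ t)
  exact ((cone_retract hz).trans h2).trans (cone_retract hz').symm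

theorem fx_cont2 : Continuous (fun z : (Fin 3 → ℝ) × (Fin 3 → ℝ) => fx z.2 z.1) := by
  unfold fx
  fun_prop

theorem fx_ne {x y : Fin 3 → ℝ} (h : nn x ≠ nn y) : pf (fx x y) ≠ 0 := by
  rw [fx_pf]
  intro h0
  apply h
  unfold nn
  linarith

theorem lp1 {x y x' y' : Fin 3 → ℝ} (h : nn y < nn x) (h' : nn y' < nn x') :
    ∃ γ : Path (fx x y) (fx x' y'), ∀ t, (∀ u v, γ t u v = -(γ t v u)) ∧ pf (γ t) ≠ 0 := by
  obtain ⟨γ, hγ⟩ := cone_joined (z := (x, y)) (z' := (x', y')) h h'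
  refine ⟨γ.map fx_cont, fun t => ?_⟩
  have h3 : nn (γ t).2 < nn (γ t).1 := hγ t
  rw [Path.map_coe]
  exact ⟨fx_alt _ _, fx_ne h3.ne'⟩

theorem lp2 {x y x' y' : Fin 3 → ℝ} (h : nn x < nn y) (h' : nn x' < nn y') :
    ∃ γ : Path (fx x y) (fx x' y'), ∀ t, (∀ u v, γ t u v = -(γ t v u)) ∧ pf (γ t) ≠ 0 := by
  obtain ⟨γ, hγ⟩ := cone_joined (z := (y, x)) (z' := (y', x')) h h'
  refine ⟨γ.map fx_cont2, fun t => ?_⟩
  have h3 : nn (γ t).2 < nn (γ t).1 := hγ t
  rw [Path.map_coe]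
  exact ⟨fx_alt _ _, fx_ne h3.ne⟩

/-- Linear symplectic forms with the same orientation are joined by a path. -/
theorem lin_path {A B : Bf} (hA : ∀ u v, A u v = -(A v u)) (hB : ∀ u v, B u v = -(B v u))
    (hAB : 0 < pf A * pf B) : ∃ γ : Path A B,
      ∀ t, (∀ u v, γ t u v = -(γ t v u)) ∧ pf (γ t) ≠ 0 := by
  obtain ⟨x, y, rfl⟩ : ∃ x y, A = fx x y := ⟨_, _, fx_surj hA⟩
  obtain ⟨x', y', rfl⟩ : ∃ x y, B = fx x y := ⟨_, _, fx_surj hB⟩
  have pA : pf (fx x y) = (nn x - nn y) / 4 := by rw [fx_pf]; rfl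
  have pB : pf (fx x' y') = (nn x' - nn y') / 4 := by rw [fx_pf]; rfl
  rcases lt_or_gt_of_ne (left_ne_zero_of_mul hAB.ne') with h1 | h1
  · have h2 : pf (fx x' y') < 0 := by
      by_contra hcon
      have := mul_nonpos_of_nonpos_of_nonneg h1.le (not_lt.1 hcon)
      linarith
    exact lp2 (by linarith) (by linarith)
  · have h2 : 0 < pf (fx x' y') := by
      by_contra hcon
      have := mul_nonpos_of_nonneg_of_nonpos h1.le (not_lt.1 hcon)
      linarith
    exact lp1 (by linarith) (by linarith)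

theorem same_sign {f : ℝ → ℝ} (hf : Continuous f) (h : ∀ t, f t ≠ 0) : 0 < f 0 * f 1 := by
  by_contra hcon
  have h0 := h 0
  have h1 := h 1
  rcases lt_or_gt_of_ne h0 with k0 | k0
  · have k1 : 0 ≤ f 1 := by
      by_contra k
      exact hcon (mul_pos_of_neg_of_neg k0 (not_le.1 k))
    obtain ⟨z, hz⟩ := mem_range_of_exists_le_of_exists_ge hf ⟨0, k0.le⟩ ⟨1, k1⟩
    exact h z hz
  · have k1 : f 1 ≤ 0 := by
      by_contra k
      exact hcon (mul_pos k0 (not_le.1 k))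
    obtain ⟨z, hz⟩ := mem_range_of_exists_le_of_exists_ge hf ⟨1, k1⟩ ⟨0, k0.le⟩
    exact h z hz

theorem pf_cont : Continuous pf := by
  unfold pf
  fun_prop

theorem ga_sign {A : Bf} {p q : Fin 4 → ℤ} {η : (Fin 4 → ℝ) → Bf} (h : IsSymp A η)
    (hpos : PosOn p q η) (hf : A (rl p) (rl q) ≠ 0) (x : Fin 4 → ℝ) :
    0 < pf (η x) * pf A := by
  have h1 : Continuous (fun t : ℝ => pf (ga A (rl p) (rl q) η t x)) :=
    pf_cont.comp ((ga_joint h hpos).continuous.comp (by fun_prop :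
      Continuous fun t : ℝ => (t, x)))
  have h2 := same_sign h1 fun t => pf_of_nondeg ((ga_symp h hpos hf t).alt x)
    ((ga_symp h hpos hf t).nondeg x)
  rw [ga_zero h hpos, ga_one h hpos] at h2
  exact h2

theorem main2 {A₀ A₁ : Bf} {η₀ η₁ : (Fin 4 → ℝ) → Bf} (h₀ : IsSymp A₀ η₀) (h₁ : IsSymp A₁ η₁)
    (t₀ : TorusPos A₀ η₀) (t₁ : TorusPos A₁ η₁) (hor : ∀ x, 0 < pf (η₀ x) * pf (η₁ x)) :
    ∃ Ω : ℝ → (Fin 4 → ℝ) → Bf,
      Continuous (fun y : ℝ × (Fin 4 → ℝ) => Ω y.1 y.2) ∧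
      Ω 0 = η₀ ∧ Ω 1 = η₁ ∧ ∀ t ∈ Icc (0 : ℝ) 1, Pool.Agent.Helper224_t4P.IsNondeg (Ω t) := by
  obtain ⟨p, q, hf, hpos⟩ := t₀
  obtain ⟨p', q', hf', hpos'⟩ := t₁
  have s0 := ga_sign h₀ hpos hf 0
  have s1 := ga_sign h₁ hpos' hf' 0
  have s2 := hor 0
  have hAB : 0 < pf A₀ * pf A₁ := by
    have h1 : 0 < (pf (η₀ 0) * pf A₀) * (pf (η₁ 0) * pf A₁) := mul_pos s0 s1
    have h2 : (pf (η₀ 0) * pf A₀) * (pf (η₁ 0) * pf A₁) =
      (pf (η₀ 0) * pf (η₁ 0)) * (pf A₀ * pf A₁) := by ring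
    rw [h2] at h1
    exact (mul_pos_iff_of_pos_left s2).1 h1
  obtain ⟨γ, hγ⟩ := lin_path (altA (ta_invS h₀ hpos)) (altA (ta_invS h₁ hpos')) hAB
  have hsy : ∀ {A : Bf} {η : (Fin 4 → ℝ) → Bf}, IsSymp A η →
      Pool.Agent.Helper224_t4P.IsNondeg η := fun h => ⟨h.per, h.alt, h.nondeg⟩
  have hsy2 : ∀ s : ℝ, Pool.Agent.Helper224_t4P.IsNondeg (fun _ : Fin 4 → ℝ => γ.extend s) := by
    intro s
    have h2 : ∃ t, γ.extend s = γ t := by
      have : γ.extend s ∈ range γ.extend := mem_range_self s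
      rw [Path.extend_range] at this
      obtain ⟨t, ht⟩ := this
      exact ⟨t, ht.symm⟩
    obtain ⟨t, ht⟩ := h2
    rw [ht]
    exact ⟨fun _ _ => rfl, fun _ => (hγ t).1, fun _ => nondeg_of_pf (hγ t).1 (hγ t).2⟩
  have hφ : Continuous Real.smoothTransition := Real.smoothTransition.continuous
  have z1 : ∀ t : ℝ, t ≤ 0 → Real.smoothTransition t = 0 := fun t ht =>
    Real.smoothTransition.zero_of_nonpos ht
  have z2 : ∀ t : ℝ, 1 ≤ t → Real.smoothTransition t = 1 := fun t ht =>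
    Real.smoothTransition.one_of_one_le ht
  refine ⟨fun t x => ga A₀ (rl p) (rl q) η₀ (Real.smoothTransition (3 * t)) x +
    (γ.extend (Real.smoothTransition (3 * t - 1)) - A₀) +
    (ga A₁ (rl p') (rl q') η₁ (1 - Real.smoothTransition (3 * t - 2)) x - A₁), ?_, ?_, ?_, ?_⟩
  · have c1 : Continuous (fun y : ℝ × (Fin 4 → ℝ) => Real.smoothTransition (3 * y.1)) :=
      hφ.comp (by fun_prop)
    have c2 : Continuous (fun y : ℝ × (Fin 4 → ℝ) => Real.smoothTransition (3 * y.1 - 1)) :=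
      hφ.comp (by fun_prop)
    have c3 : Continuous (fun y : ℝ × (Fin 4 → ℝ) => 1 - Real.smoothTransition (3 * y.1 - 2)) :=
      continuous_const.sub (hφ.comp (by fun_prop))
    have d1 := (ga_joint h₀ hpos).continuous.comp (c1.prodMk continuous_snd)
    have d3 := (ga_joint h₁ hpos').continuous.comp (c3.prodMk continuous_snd)
    exact (d1.add ((γ.continuous_extend.comp c2).sub continuous_const)).add
      (d3.sub continuous_const)
  · funext x
    have e1 := z1 (3 * (0 : ℝ)) (by norm_num)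
    have e2 := z1 (3 * (0 : ℝ) - 1) (by norm_num)
    have e3 := z1 (3 * (0 : ℝ) - 2) (by norm_num)
    simp only [e1, e2, e3, sub_zero]
    rw [ga_zero h₀ hpos, ga_one h₁ hpos', γ.extend_zero]
    simp
  · funext x
    have e1 := z2 (3 * (1 : ℝ)) (by norm_num)
    have e2 := z2 (3 * (1 : ℝ) - 1) (by norm_num)
    have e3 := z2 (3 * (1 : ℝ) - 2) (by norm_num)
    simp only [e1, e2, e3, sub_self]
    rw [ga_one h₀ hpos, ga_zero h₁ hpos', γ.extend_one]
    simp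
  · intro t _
    rcases le_total t (1 / 3) with ht | ht
    · have e2 := z1 (3 * t - 1) (by linarith)
      have e3 := z1 (3 * t - 2) (by linarith)
      have e : (fun x => ga A₀ (rl p) (rl q) η₀ (Real.smoothTransition (3 * t)) x +
          (γ.extend (Real.smoothTransition (3 * t - 1)) - A₀) +
          (ga A₁ (rl p') (rl q') η₁ (1 - Real.smoothTransition (3 * t - 2)) x - A₁)) =
          ga A₀ (rl p) (rl q) η₀ (Real.smoothTransition (3 * t)) := by
        funext x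
        rw [e2, e3, sub_zero, ga_one h₁ hpos', γ.extend_zero]
        simp
      have h5 := hsy (ga_symp h₀ hpos hf (Real.smoothTransition (3 * t)))
      rw [← e] at h5
      exact h5
    · have e1 := z2 (3 * t) (by linarith)
      rcases le_total t (2 / 3) with ht2 | ht2
      · have e3 := z1 (3 * t - 2) (by linarith)
        have e : (fun x => ga A₀ (rl p) (rl q) η₀ (Real.smoothTransition (3 * t)) x +
            (γ.extend (Real.smoothTransition (3 * t - 1)) - A₀) +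
            (ga A₁ (rl p') (rl q') η₁ (1 - Real.smoothTransition (3 * t - 2)) x - A₁)) =
            fun _ : Fin 4 → ℝ => γ.extend (Real.smoothTransition (3 * t - 1)) := by
          funext x
          rw [e1, e3, sub_zero, ga_one h₁ hpos', ga_one h₀ hpos]
          simp
        have h5 := hsy2 (Real.smoothTransition (3 * t - 1))
        rw [← e] at h5
        exact h5
      · have e2 := z2 (3 * t - 1) (by linarith)
        have e : (fun x => ga A₀ (rl p) (rl q) η₀ (Real.smoothTransition (3 * t)) x +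
            (γ.extend (Real.smoothTransition (3 * t - 1)) - A₀) +
            (ga A₁ (rl p') (rl q') η₁ (1 - Real.smoothTransition (3 * t - 2)) x - A₁)) =
            ga A₁ (rl p') (rl q') η₁ (1 - Real.smoothTransition (3 * t - 2)) := by
          funext x
          rw [e1, e2, ga_one h₀ hpos, γ.extend_one]
          simp
        have h5 := hsy (ga_symp h₁ hpos' hf' (1 - Real.smoothTransition (3 * t - 2)))
        rw [← e] at h5
        exact h5

theorem main2' {A₀ A₁ : Bf} {η₀ η₁ : (Fin 4 → ℝ) → Bf}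
    (h₀ : Pool.Agent.Helper224_t4P.IsSymp A₀ η₀) (h₁ : Pool.Agent.Helper224_t4P.IsSymp A₁ η₁)
    (t₀ : Pool.Agent.Helper224_t4P.TorusPos A₀ η₀) (t₁ : Pool.Agent.Helper224_t4P.TorusPos A₁ η₁)
    (hor : ∀ x, 0 < Pool.Agent.Helper224_t4P.pf (η₀ x) * Pool.Agent.Helper224_t4P.pf (η₁ x)) :
    ∃ Ω : ℝ → (Fin 4 → ℝ) → Bf, Pool.Agent.Helper224_t4P.ContFamily Ω ∧
      Ω 0 = η₀ ∧ Ω 1 = η₁ ∧
      ∀ t ∈ Icc (0 : ℝ) 1, Pool.Agent.Helper224_t4P.IsNondeg (Ω t) :=
  main2 ((isSymp_iff A₀ η₀).1 h₀) ((isSymp_iff A₁ η₁).1 h₁)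
    ((torusPos_iff A₀ η₀).1 t₀) ((torusPos_iff A₁ η₁).1 t₁) hor

end Pool.Agent.Helper224_t4
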