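import Pool.Agent.Helper224_t4.Avg2

/-!
Linear algebra of alternating bilinear forms on `ℝ^4`.
-/

set_option autoImplicit false
set_option maxSynthPendingDepth 3

open Set MeasureTheory Filter Topology
open scoped ContDiff

noncomputable section

namespace Pool.Agent.Helper224_t4

/-- the Schur complement -/
def sch (η : Bf) (P Q u w : Fin 4 → ℝ) : ℝ :=
  η u w - (η P Q)⁻¹ * (η P u * η Q w - η P w * η Q u)

/-- the wedge product -/
def wd (a b : (Fin 4 → ℝ) →L[ℝ] ℝ) : Bf := a.smulRight b - b.smulRight a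

theorem wd_apply (a b : (Fin 4 → ℝ) →L[ℝ] ℝ) (u w : Fin 4 → ℝ) :
    wd a b u w = a u * b w - b u * a w := by
  simp [wd]

section

variable {η : Bf} (h : ∀ u v, η u v = -(η v u)) {P Q : Fin 4 → ℝ} (hf : η P Q ≠ 0)

include h

theorem self0 (u : Fin 4 → ℝ) : η u u = 0 := by
  have := h u u
  linarith

theorem lift_eq (u w : Fin 4 → ℝ) :
    η (u + ((η P Q)⁻¹ * η Q u) • P + (-((η P Q)⁻¹ * η P u)) • Q) w = sch η P Q u w := by
  simp only [map_add, map_smul, ContinuousLinearMap.add_apply, ContinuousLinearMap.smul_apply,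
    smul_eq_mul]
  unfold sch
  ring

include hf

theorem sch_P (w : Fin 4 → ℝ) : sch η P Q P w = 0 := by
  unfold sch
  rw [self0 h P, h Q P]
  field_simp
  ring

theorem sch_Q (w : Fin 4 → ℝ) : sch η P Q Q w = 0 := by
  unfold sch
  rw [self0 h Q]
  field_simp
  ring

omit hf in
theorem sch_alt (u w : Fin 4 → ℝ) : sch η P Q u w = -(sch η P Q w u) := by
  unfold sch
  rw [h u w]
  ring

omit hf h in
theorem sch_lin (a b c d : ℝ) (P' Q' u u' w : Fin 4 → ℝ) :
    sch η P Q (a • P' + b • Q' + c • u + d • u') w =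
      a * sch η P Q P' w + b * sch η P Q Q' w + c * sch η P Q u w + d * sch η P Q u' w := by
  unfold sch
  simp only [map_add, map_smul, ContinuousLinearMap.add_apply, ContinuousLinearMap.smul_apply,
    smul_eq_mul]
  ring

theorem nondeg_of_sch {U W : Fin 4 → ℝ}
    (hfr : ∀ x : Fin 4 → ℝ, ∃ a b c d : ℝ, x = a • P + b • Q + c • U + d • W)
    (hs : sch η P Q U W ≠ 0) (v : Fin 4 → ℝ) (hv : ∀ w, η v w = 0) : v = 0 := by
  obtain ⟨a, b, c, d, rfl⟩ := hfr v
  set v := a • P + b • Q + c • U + d • W with hvd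
  have h0 : ∀ w, sch η P Q v w = 0 := by
    intro w
    unfold sch
    rw [hv w, h P v, h Q v, hv P, hv Q]
    ring
  have h1 := h0 W
  rw [hvd, sch_lin, sch_P h hf, sch_Q h hf] at h1
  have hWW : sch η P Q W W = 0 := by
    have := sch_alt h (P := P) (Q := Q) W W
    linarith
  have hUU : sch η P Q U U = 0 := by
    have := sch_alt h (P := P) (Q := Q) U U
    linarith
  rw [hWW] at h1
  have hc : c = 0 := by
    have : c * sch η P Q U W = 0 := by linarith
    exact (mul_eq_zero.1 this).resolve_right hs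
  have h2 := h0 U
  rw [hvd, sch_lin, sch_P h hf, sch_Q h hf, hUU] at h2
  have hd : d = 0 := by
    have h3 := sch_alt h (P := P) (Q := Q) W U
    have : d * sch η P Q U W = 0 := by
      rw [h3] at h2
      linarith
    exact (mul_eq_zero.1 this).resolve_right hs
  have h4 := hv P
  have h5 := hv Q
  rw [hvd, hc, hd] at h4 h5
  simp only [map_add, map_smul, ContinuousLinearMap.add_apply, ContinuousLinearMap.smul_apply,
    smul_eq_mul, zero_mul, add_zero, self0 h P, self0 h Q, mul_zero, zero_add] at h4 h5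
  have ha : a = 0 := (mul_eq_zero.1 h5).resolve_right hf
  have hb : b = 0 := by
    rw [h Q P] at h4
    have : b * η P Q = 0 := by linarith
    exact (mul_eq_zero.1 this).resolve_right hf
  rw [hvd, ha, hb, hc, hd]
  simp

theorem sch_ne (hn : ∀ v, (∀ w, η v w = 0) → v = 0) {U : Fin 4 → ℝ}
    (hU : ∀ a b : ℝ, U + a • P + b • Q ≠ 0) : ∃ w, sch η P Q U w ≠ 0 := by
  by_contra hcon
  push Not at hcon
  refine hU _ _ (hn (U + ((η P Q)⁻¹ * η Q U) • P + (-((η P Q)⁻¹ * η P U)) • Q) fun w => ?_)
  rw [lift_eq h]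
  exact hcon w

theorem sch_ne' (hn : ∀ v, (∀ w, η v w = 0) → v = 0) {U W : Fin 4 → ℝ}
    (hU : ∀ a b : ℝ, U + a • P + b • Q ≠ 0)
    (hfr : ∀ x : Fin 4 → ℝ, ∃ a b c d : ℝ, x = a • P + b • Q + c • U + d • W) :
    sch η P Q U W ≠ 0 := by
  intro h0
  obtain ⟨w, hw⟩ := sch_ne h hf hn hU
  obtain ⟨a, b, c, d, rfl⟩ := hfr w
  apply hw
  rw [sch_alt h, sch_lin, sch_P h hf, sch_Q h hf, sch_alt h U U, sch_alt h W U, h0]
  have hUU : sch η P Q U U = 0 := by
    have := sch_alt h (P := P) (Q := Q) U U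
    linarith
  rw [hUU]
  ring

/-- a frame adapted to the plane spanned by `P` and `Q` -/
theorem exists_frame (hn : ∀ v, (∀ w, η v w = 0) → v = 0) :
    ∃ U W : Fin 4 → ℝ, (∀ a b : ℝ, U + a • P + b • Q ≠ 0) ∧
      ∀ x : Fin 4 → ℝ, ∃ a b c d : ℝ, x = a • P + b • Q + c • U + d • W := by
  obtain ⟨U, hU⟩ : ∃ U : Fin 4 → ℝ, ∀ a b : ℝ, U + a • P + b • Q ≠ 0 := by
    by_contra hcon
    push Not at hcon
    have h1 : (Submodule.span ℝ (Set.range ![P, Q])) = ⊤ := by
      rw [Submodule.eq_top_iff']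
      intro x
      obtain ⟨a, b, hab⟩ := hcon x
      have hx : x = (-a) • P + (-b) • Q := by
        have : x = -(a • P) - b • Q := by
          rw [eq_sub_iff_add_eq, eq_neg_iff_add_eq_zero, ← hab]
          abel
        rw [this, neg_smul, neg_smul]; abel
      rw [hx]
      refine Submodule.add_mem _ (Submodule.smul_mem _ _ (Submodule.subset_span ⟨0, rfl⟩))
        (Submodule.smul_mem _ _ (Submodule.subset_span ⟨1, rfl⟩))
    have h2 : Module.finrank ℝ (Submodule.span ℝ (Set.range ![P, Q])) ≤ 2 := by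
      have := finrank_range_le_card (R := ℝ) ![P, Q]
      simpa [Set.finrank] using this
    rw [h1, finrank_top] at h2
    simp at h2
  obtain ⟨W, hW⟩ := sch_ne h hf hn hU
  refine ⟨U, W, hU, ?_⟩
  have hWW : sch η P Q W W = 0 := by
    have := sch_alt h (P := P) (Q := Q) W W
    linarith
  have hUU : sch η P Q U U = 0 := by
    have := sch_alt h (P := P) (Q := Q) U U
    linarith
  have hli : LinearIndependent ℝ ![P, Q, U, W] := by
    rw [Fintype.linearIndependent_iff]
    intro g hg
    simp only [Fin.sum_univ_four, Matrix.cons_val_zero, Matrix.cons_val_one, Matrix.cons_val]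
      at hg
    have hz : ∀ w, η (g 0 • P + g 1 • Q + g 2 • U + g 3 • W) w = 0 := by
      intro w; rw [hg]; simp
    have hz2 : ∀ w, sch η P Q (g 0 • P + g 1 • Q + g 2 • U + g 3 • W) w = 0 := by
      intro w
      unfold sch
      rw [hg]
      simp
    have h1 := hz2 W
    rw [sch_lin, sch_P h hf, sch_Q h hf, hWW] at h1
    have hc : g 2 = 0 := by
      have : g 2 * sch η P Q U W = 0 := by linarith
      exact (mul_eq_zero.1 this).resolve_right hW
    have h2 := hz2 U
    rw [sch_lin, sch_P h hf, sch_Q h hf, hUU] at h2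
    have hd : g 3 = 0 := by
      have h3 := sch_alt h (P := P) (Q := Q) W U
      have : g 3 * sch η P Q U W = 0 := by
        rw [h3] at h2
        linarith
      exact (mul_eq_zero.1 this).resolve_right hW
    have h4 := hz P
    have h5 := hz Q
    rw [hc, hd] at h4 h5
    simp only [map_add, map_smul, ContinuousLinearMap.add_apply, ContinuousLinearMap.smul_apply,
      smul_eq_mul, zero_mul, add_zero, self0 h P, self0 h Q, mul_zero, zero_add] at h4 h5
    have ha : g 0 = 0 := (mul_eq_zero.1 h5).resolve_right hf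
    have hb : g 1 = 0 := by
      rw [h Q P] at h4
      have : g 1 * η P Q = 0 := by linarith
      exact (mul_eq_zero.1 this).resolve_right hf
    intro i
    fin_cases i
    · exact ha
    · exact hb
    · exact hc
    · exact hd
  intro x
  let B := basisOfLinearIndependentOfCardEqFinrank hli (by simp)
  have hx := B.sum_repr x
  refine ⟨B.repr x 0, B.repr x 1, B.repr x 2, B.repr x 3, ?_⟩
  conv_lhs => rw [← hx]
  rw [Fin.sum_univ_four]
  simp [B]

end

end Pool.Agent.Helper224_t4
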