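import Pool.Agent.Helper224_tor.Avg

/-!
Means of periodic functions on `ℝ^N`.
-/

set_option autoImplicit false

open Set MeasureTheory Filter Topology
open scoped ContDiff

noncomputable section

namespace Pool.Agent.Helper224_t4

open Pool.Agent.Helper224_tor

variable {N : ℕ} {G : Type} [NormedAddCommGroup G] [NormedSpace ℝ G] [CompleteSpace G]

/-- the mean over the unit cube -/
def mn (F : (Fin N → ℝ) → G) : G := ∫ x in Icc (0 : Fin N → ℝ) 1, F x

/-- periodicity -/
def Per (F : (Fin N → ℝ) → G) : Prop := ∀ (x : Fin N → ℝ) (i : Fin N), F (x + Pi.single i 1) = F x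

omit [NormedSpace ℝ G] [CompleteSpace G] in
theorem int_cont {F : (Fin N → ℝ) → G} (hF : Continuous F) :
    IntegrableOn F (Icc (0 : Fin N → ℝ) 1) :=
  hF.continuousOn.integrableOn_compact isCompact_Icc

theorem mn_deriv {F : (Fin N → ℝ) → G} (hF : ContDiff ℝ ∞ F) (hper : Per F) (a : Fin N → ℝ) :
    mn (fun x => fderiv ℝ F x a) = 0 := by
  have key : ∀ i : Fin N, mn (fun x => fderiv ℝ F x (Pi.single i 1)) = 0 := by
    intro i
    have h1 : ContDiff ℝ ∞ (fun q : (Fin N → ℝ) × (Fin 0 → ℝ) => F q.1) := hF.comp contDiff_fst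
    have h2 := avg_partial (F := fun q : (Fin N → ℝ) × (Fin 0 → ℝ) => F q.1) isOpen_univ
      h1.contDiffOn (mem_univ (0 : Fin 0 → ℝ)) i (fun t => hper t i)
    unfold mn
    rw [← h2]
    congr 1
    funext t
    have h3 : HasFDerivAt (fun q : (Fin N → ℝ) × (Fin 0 → ℝ) => F q.1)
        ((fderiv ℝ F t).comp (ContinuousLinearMap.fst ℝ (Fin N → ℝ) (Fin 0 → ℝ))) (t, 0) :=
      ((hF.differentiable (by simp)) t).hasFDerivAt.comp (t, (0 : Fin 0 → ℝ)) hasFDerivAt_fst
    rw [h3.fderiv]; rfl
  have hc : Continuous (fderiv ℝ F) := hF.continuous_fderiv (by simp)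
  have e : ∀ x, fderiv ℝ F x a = ∑ i, a i • fderiv ℝ F x (Pi.single i 1) := by
    intro x
    have ea : a = ∑ i, a i • (Pi.single i 1 : Fin N → ℝ) := by
      funext l
      simp [Finset.sum_apply, Pi.single_apply]
    conv_lhs => rw [ea]
    rw [map_sum]
    simp only [map_smul]
  have hs : ∀ i : Fin N, IntegrableOn (fun x => a i • fderiv ℝ F x (Pi.single i 1))
      (Icc (0 : Fin N → ℝ) 1) := fun i =>
    int_cont ((hc.clm_apply continuous_const).const_smul (a i))
  unfold mn
  simp only [e]
  rw [integral_finsetSum _ fun i _ => hs i]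
  refine Finset.sum_eq_zero fun i _ => ?_
  rw [integral_smul]
  have := key i
  unfold mn at this
  rw [this, smul_zero]

/-- parametric derivative of the shifted mean -/
theorem shift_deriv {F : (Fin N → ℝ) → G} (hF : ContDiff ℝ ∞ F) (y : Fin N → ℝ) :
    HasFDerivAt (fun y => mn (fun x => F (x + y))) (mn (fun x => fderiv ℝ F (x + y))) y := by
  have h1 : ContDiff ℝ ∞ (fun q : (Fin N → ℝ) × (Fin N → ℝ) => F (q.1 + q.2)) := by fun_prop
  have h2 := avg_hasFDerivAt (F := fun q : (Fin N → ℝ) × (Fin N → ℝ) => F (q.1 + q.2)) isOpen_univ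
      h1.contDiffOn (mem_univ y)
  have h3 : avg (par fun q : (Fin N → ℝ) × (Fin N → ℝ) => F (q.1 + q.2)) y =
      mn (fun x => fderiv ℝ F (x + y)) := by
    unfold avg mn
    congr 1
    funext x
    have h4 : HasFDerivAt (fun q : (Fin N → ℝ) × (Fin N → ℝ) => F (q.1 + q.2))
        ((fderiv ℝ F (x + y)).comp (ContinuousLinearMap.fst ℝ (Fin N → ℝ) (Fin N → ℝ) +
          ContinuousLinearMap.snd ℝ (Fin N → ℝ) (Fin N → ℝ))) (x, y) :=
      HasFDerivAt.comp (g := F) (x, y) ((hF.differentiable (by simp)) (x + y)).hasFDerivAt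
        (hasFDerivAt_fst.add hasFDerivAt_snd)
    unfold par
    rw [h4.fderiv]
    ext v
    simp
  rw [h3] at h2
  exact h2

omit [CompleteSpace G] in
theorem per_deriv {F : (Fin N → ℝ) → G} (hper : Per F) : Per (fderiv ℝ F) := by
  intro x i
  have : (fun x => F (x + Pi.single i 1)) = F := funext fun x => hper x i
  conv_rhs => rw [← this]
  rw [fderiv_comp_add_right]

theorem mn_shift {F : (Fin N → ℝ) → G} (hF : ContDiff ℝ ∞ F) (hper : Per F) (y : Fin N → ℝ) :
    mn (fun x => F (x + y)) = mn F := by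
  have hd : ∀ y : Fin N → ℝ, mn (fun x => fderiv ℝ F (x + y)) = 0 := by
    intro y
    ext a
    have h1 : ContDiff ℝ ∞ (fun x => F (x + y)) := by fun_prop
    have h2 : Per (fun x => F (x + y)) := by
      intro x i
      have := hper (x + y) i
      change F (x + Pi.single i 1 + y) = F (x + y)
      rw [← this]
      congr 1
      abel
    have h3 := mn_deriv h1 h2 a
    have h4 : Continuous (fun x => fderiv ℝ F (x + y)) :=
      (hF.continuous_fderiv (by simp)).comp (by fun_prop)
    unfold mn at h3 ⊢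
    rw [ContinuousLinearMap.integral_apply (int_cont h4)]
    change _ = (0 : G)
    rw [← h3]
    congr 1
    funext x
    change (fderiv ℝ F (x + y)) a = (fderiv ℝ (fun x => F (x + y)) x) a
    rw [fderiv_comp_add_right]
  have hconst : ∀ y, HasFDerivAt (fun y => mn (fun x => F (x + y)))
      (0 : (Fin N → ℝ) →L[ℝ] G) y := by
    intro y
    have := shift_deriv hF y
    rwa [hd y] at this
  have h5 := is_const_of_fderiv_eq_zero (𝕜 := ℝ)
    (f := fun y => mn (fun x => F (x + y))) (fun y => (hconst y).differentiableAt)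
    (fun y => (hconst y).fderiv) y 0
  simpa using h5

theorem mn_const (c : G) : mn (fun _ : Fin N → ℝ => c) = c := by
  unfold mn
  rw [setIntegral_const]
  have : (volume : Measure (Fin N → ℝ)).real (Icc 0 1) = 1 := by
    rw [Measure.real, Real.volume_Icc_pi]
    simp
  rw [this, one_smul]

theorem mn_swap {M : ℕ} {F : (Fin N → ℝ) × (Fin M → ℝ) → G} (hF : Continuous F) :
    mn (fun x => mn (fun s => F (x, s))) = mn (fun s => mn (fun x => F (x, s))) := by
  unfold mn
  refine integral_integral_swap (f := fun x s => F (x, s)) ?_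
  rw [Measure.prod_restrict]
  have : Function.uncurry (fun x s => F (x, s)) = F := by
    funext q; rfl
  rw [this]
  exact hF.continuousOn.integrableOn_compact (isCompact_Icc.prod isCompact_Icc)

theorem mn_pos {F : (Fin N → ℝ) → ℝ} (hF : Continuous F) (h : ∀ x, 0 < F x) : 0 < mn F := by
  unfold mn
  rw [setIntegral_pos_iff_support_of_nonneg_ae
    (Filter.Eventually.of_forall fun t => (h t).le) (int_cont hF)]
  have e : (Function.support fun t => F t) = univ := by
    ext t; simp [(h t).ne']
  rw [e, univ_inter, Real.volume_Icc_pi]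
  simp

/-- a primitive of a closed periodic one-form of mean zero -/
theorem primitive {α : (Fin N → ℝ) → (Fin N → ℝ) →L[ℝ] ℝ} (hα : ContDiff ℝ ∞ α) (hper : Per α)
    (hcl : ∀ x u v, fderiv ℝ α x u v = fderiv ℝ α x v u) (h0 : mn α = 0) :
    ∃ g : (Fin N → ℝ) → ℝ, ContDiff ℝ ∞ g ∧ Per g ∧ ∀ x, HasFDerivAt g (α x) x := by
  have hα1 : DifferentiableOn ℝ α univ := (hα.differentiable (by simp)).differentiableOn
  obtain ⟨g, hg⟩ := convex_univ.exists_forall_hasFDerivAt_of_fderiv_symmetric isOpen_univ
    hα1 (fun a _ x y => hcl a x y)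
  have hg' : ∀ x, HasFDerivAt g (α x) x := fun x => hg x (mem_univ x)
  have hfd : fderiv ℝ g = α := funext fun x => (hg' x).fderiv
  have hgs : ContDiff ℝ ∞ g := by
    rw [contDiff_infty_iff_fderiv]
    exact ⟨fun x => (hg' x).differentiableAt, by rw [hfd]; exact hα⟩
  refine ⟨g, hgs, ?_, hg'⟩
  intro x i
  -- the difference is constant
  have hdiff : ∀ y, HasFDerivAt (fun y => g (y + Pi.single i 1) - g y)
      (0 : (Fin N → ℝ) →L[ℝ] ℝ) y := by
    intro y
    have h1 : HasFDerivAt (fun y => g (y + Pi.single i 1)) (α (y + Pi.single i 1)) y := by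
      have := (hg' (y + Pi.single i 1)).comp y ((hasFDerivAt_id y).add_const (Pi.single i 1))
      rw [ContinuousLinearMap.comp_id] at this
      exact this
    have h2 := h1.sub (hg' y)
    rw [hper y i, sub_self] at h2
    exact h2
  have hc : ∀ y, g (y + Pi.single i 1) - g y = g (x + Pi.single i 1) - g x := fun y =>
    is_const_of_fderiv_eq_zero (𝕜 := ℝ) (f := fun y => g (y + Pi.single i 1) - g y)
      (fun y => (hdiff y).differentiableAt) (fun y => (hdiff y).fderiv) y x
  -- the mean of the shifts is constant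
  have hd : ∀ y, HasFDerivAt (fun y => mn (fun x => g (x + y))) (0 : (Fin N → ℝ) →L[ℝ] ℝ) y := by
    intro y
    have h1 := shift_deriv hgs y
    rw [hfd, mn_shift hα hper, h0] at h1
    exact h1
  have h2 := is_const_of_fderiv_eq_zero (𝕜 := ℝ) (f := fun y => mn (fun x => g (x + y)))
      (fun y => (hd y).differentiableAt) (fun y => (hd y).fderiv) (Pi.single i 1) 0
  have h3 : mn (fun y => g (y + Pi.single i 1) - g y) = 0 := by
    have i1 : IntegrableOn (fun y => g (y + Pi.single i 1)) (Icc (0 : Fin N → ℝ) 1) :=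
      int_cont (hgs.continuous.comp (by fun_prop))
    have i2 : IntegrableOn (fun y => g y) (Icc (0 : Fin N → ℝ) 1) := int_cont hgs.continuous
    have h4 : mn (fun y => g (y + Pi.single i 1) - g y) =
        mn (fun y => g (y + Pi.single i 1)) - mn (fun y => g y) := integral_sub i1 i2
    rw [h4]
    have h5 : mn (fun x => g (x + Pi.single i 1)) = mn (fun x => g (x + 0)) := h2
    rw [h5]
    simp
  have h6 : mn (fun y => g (y + Pi.single i 1) - g y) = g (x + Pi.single i 1) - g x := by
    simp only [hc]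
    exact mn_const _
  rw [h6] at h3
  linarith

/-- the mean of the wedge product of two closed periodic one-forms, one of mean zero -/
theorem mn_wedge {α β : (Fin N → ℝ) → (Fin N → ℝ) →L[ℝ] ℝ} (hα : ContDiff ℝ ∞ α)
    (hper : Per α) (hcl : ∀ x u v, fderiv ℝ α x u v = fderiv ℝ α x v u) (h0 : mn α = 0)
    (hβ : ContDiff ℝ ∞ β) (hperβ : Per β)
    (hclβ : ∀ x u v, fderiv ℝ β x u v = fderiv ℝ β x v u) (u w : Fin N → ℝ) :
    mn (fun x => α x u * β x w - α x w * β x u) = 0 := by
  obtain ⟨g, hg, hgp, hd⟩ := primitive hα hper hcl h0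
  have key : ∀ v : Fin N → ℝ, ContDiff ℝ ∞ (fun x => g x * β x v) ∧
      Per (fun x => g x * β x v) ∧ ∀ x a, fderiv ℝ (fun x => g x * β x v) x a =
        α x a * β x v + g x * fderiv ℝ β x a v := by
    intro v
    refine ⟨hg.mul (hβ.clm_apply contDiff_const), fun x i => by simp only [hgp x i, hperβ x i],
      fun x a => ?_⟩
    have h1 : HasFDerivAt (fun x => β x v)
        ((ContinuousLinearMap.apply ℝ ℝ v).comp (fderiv ℝ β x)) x :=
      (ContinuousLinearMap.apply ℝ ℝ v).hasFDerivAt.comp x
        ((hβ.differentiable (by simp)) x).hasFDerivAt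
    have h2 : HasFDerivAt (fun x => g x * β x v) _ x := (hd x).mul h1
    rw [h2.fderiv]
    simp
    ring
  have e : ∀ x, α x u * β x w - α x w * β x u =
      fderiv ℝ (fun x => g x * β x w) x u - fderiv ℝ (fun x => g x * β x u) x w := by
    intro x
    rw [(key w).2.2, (key u).2.2, hclβ x u w]
    ring
  simp only [e]
  have c1 : Continuous (fun x => fderiv ℝ (fun x => g x * β x w) x u) :=
    ((key w).1.continuous_fderiv (by simp)).clm_apply continuous_const
  have c2 : Continuous (fun x => fderiv ℝ (fun x => g x * β x u) x w) :=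
    ((key u).1.continuous_fderiv (by simp)).clm_apply continuous_const
  have : mn (fun x => fderiv ℝ (fun x => g x * β x w) x u -
      fderiv ℝ (fun x => g x * β x u) x w) =
      mn (fun x => fderiv ℝ (fun x => g x * β x w) x u) -
      mn (fun x => fderiv ℝ (fun x => g x * β x u) x w) :=
    integral_sub (int_cont c1) (int_cont c2)
  rw [this, mn_deriv (key w).1 (key w).2.1, mn_deriv (key u).1 (key u).2.1, sub_zero]

end Pool.Agent.Helper224_t4
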