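import Pool.Agent.Helper224_t4.Lin4

/-!
Symplectic forms on the torus `ℝ^4 / ℤ^4` which are invariant under a two-dimensional subtorus.
-/

set_option autoImplicit false
set_option maxSynthPendingDepth 3

open Set MeasureTheory Filter Topology
open scoped ContDiff

noncomputable section

namespace Pool.Agent.Helper224_t4

/-- invariant symplectic forms -/
structure InvS (A : Bf) (P Q : Fin 4 → ℝ) (σ : (Fin 4 → ℝ) → Bf) : Prop where
  smooth : ContDiff ℝ ∞ σ
  per : Per σ
  perZ : ∀ (x : Fin 4 → ℝ) (n : Fin 4 → ℤ), σ (x + fun i => (n i : ℝ)) = σ x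
  alt : ∀ x u v : Fin 4 → ℝ, σ x u v = -(σ x v u)
  closed : ∀ x u v w : Fin 4 → ℝ,
    fderiv ℝ σ x u v w + fderiv ℝ σ x v w u + fderiv ℝ σ x w u v = 0
  hP : ∀ x, fderiv ℝ σ x P = 0
  hQ : ∀ x, fderiv ℝ σ x Q = 0
  mean : mn σ = A
  nondeg : ∀ x v : Fin 4 → ℝ, (∀ w : Fin 4 → ℝ, σ x v w = 0) → v = 0

theorem fev1 {σ : (Fin 4 → ℝ) → Bf} (hσ : ContDiff ℝ ∞ σ) (x u : Fin 4 → ℝ) :
    HasFDerivAt (fun x => σ x u)
      ((ContinuousLinearMap.apply ℝ ((Fin 4 → ℝ) →L[ℝ] ℝ) u).comp (fderiv ℝ σ x)) x :=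
  (ContinuousLinearMap.apply ℝ ((Fin 4 → ℝ) →L[ℝ] ℝ) u).hasFDerivAt.comp x
    ((hσ.differentiable (by simp)) x).hasFDerivAt

theorem fev2 {σ : (Fin 4 → ℝ) → Bf} (hσ : ContDiff ℝ ∞ σ) (x u w : Fin 4 → ℝ) :
    HasFDerivAt (fun x => σ x u w)
      ((ContinuousLinearMap.apply ℝ ℝ w).comp
        ((ContinuousLinearMap.apply ℝ ((Fin 4 → ℝ) →L[ℝ] ℝ) u).comp (fderiv ℝ σ x))) x :=
  (ContinuousLinearMap.apply ℝ ℝ w).hasFDerivAt.comp x (fev1 hσ x u)

theorem fev2' {σ : (Fin 4 → ℝ) → Bf} (hσ : ContDiff ℝ ∞ σ) (x u w a : Fin 4 → ℝ) :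
    fderiv ℝ (fun x => σ x u w) x a = fderiv ℝ σ x a u w := by
  rw [(fev2 hσ x u w).fderiv]; rfl

theorem dalt {σ : (Fin 4 → ℝ) → Bf} (hσ : ContDiff ℝ ∞ σ)
    (h : ∀ x u v : Fin 4 → ℝ, σ x u v = -(σ x v u)) (x a u w : Fin 4 → ℝ) :
    fderiv ℝ σ x a u w = -(fderiv ℝ σ x a w u) := by
  rw [← fev2' hσ, ← fev2' hσ]
  have : (fun x => σ x u w) = fun x => -(σ x w u) := funext fun x => h x u w
  rw [this, fderiv_fun_neg]
  rfl

section

variable {A : Bf} {P Q : Fin 4 → ℝ} {σ : (Fin 4 → ℝ) → Bf} (h : InvS A P Q σ)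

include h

theorem symP (x a w : Fin 4 → ℝ) : fderiv ℝ σ x a P w = fderiv ℝ σ x w P a := by
  have h1 := h.closed x a P w
  rw [h.hP] at h1
  have h2 := dalt h.smooth h.alt x w a P
  have h3 : ((0 : Bf) w) a = 0 := rfl
  rw [h3] at h1
  linarith

theorem symQ (x a w : Fin 4 → ℝ) : fderiv ℝ σ x a Q w = fderiv ℝ σ x w Q a := by
  have h1 := h.closed x a Q w
  rw [h.hQ] at h1
  have h2 := dalt h.smooth h.alt x w a Q
  have h3 : ((0 : Bf) w) a = 0 := rfl
  rw [h3] at h1
  linarith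

theorem mean_ev (u w : Fin 4 → ℝ) : mn (fun x => σ x u w) = A u w := by
  rw [← h.mean, mn_apply2 h.smooth.continuous]

theorem altA (u w : Fin 4 → ℝ) : A u w = -(A w u) := by
  rw [← mean_ev h, ← mean_ev h]
  unfold mn
  rw [← integral_neg]
  congr 1
  funext x
  exact h.alt x u w

theorem const_PQ (x : Fin 4 → ℝ) : σ x P Q = A P Q := by
  have hd : ∀ y, fderiv ℝ (fun y => σ y P Q) y = 0 := by
    intro y
    ext a
    rw [fev2' h.smooth, symP h y a Q, h.hQ]
    rfl
  have hc : ∀ y, σ y P Q = σ x P Q := fun y =>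
    is_const_of_fderiv_eq_zero (𝕜 := ℝ) (f := fun y => σ y P Q)
      (fun y => (fev2 h.smooth y P Q).differentiableAt) hd y x
  rw [← mean_ev h P Q]
  simp only [hc]
  exact (mn_const _).symm

/-- the one-form `σ (u, ·) - A (u, ·)` -/
theorem al_smooth (u : Fin 4 → ℝ) : ContDiff ℝ ∞ (fun x => σ x u - A u) :=
  (h.smooth.clm_apply contDiff_const).sub contDiff_const

theorem al_per (u : Fin 4 → ℝ) : Per (fun x => σ x u - A u) := fun x i => by
  simp only [h.per x i]

theorem al_deriv (x u a w : Fin 4 → ℝ) :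
    fderiv ℝ (fun x => σ x u - A u) x a w = fderiv ℝ σ x a u w := by
  have h1 : HasFDerivAt (fun x => σ x u - A u) _ x := (fev1 h.smooth x u).sub_const (A u)
  rw [h1.fderiv]; rfl

theorem al_mean (u : Fin 4 → ℝ) : mn (fun x => σ x u - A u) = 0 := by
  have hc : Continuous (fun x => σ x u) := h.smooth.continuous.clm_apply continuous_const
  have h1 : mn (fun x => σ x u - A u) = mn (fun x => σ x u) - mn (fun _ : Fin 4 → ℝ => A u) :=
    integral_sub (int_cont hc) (int_cont continuous_const)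
  rw [h1, mn_const, ← mn_apply h.smooth.continuous, h.mean, sub_self]

theorem wedge_mean (u w : Fin 4 → ℝ) :
    mn (fun x => (σ x P - A P) u * (σ x Q - A Q) w - (σ x P - A P) w * (σ x Q - A Q) u) = 0 := by
  refine mn_wedge (α := fun x => σ x P - A P) (β := fun x => σ x Q - A Q)
    (al_smooth h P) (al_per h P) (fun x a b => ?_) (al_mean h P) (al_smooth h Q) (al_per h Q)
    (fun x a b => ?_) u w
  · rw [al_deriv h, al_deriv h]; exact symP h x a b
  · rw [al_deriv h, al_deriv h]; exact symQ h x a b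

end

theorem mn_lin {F G : (Fin 4 → ℝ) → ℝ} (hF : Continuous F) (hG : Continuous G) (c : ℝ) :
    mn (fun x => F x + c * G x) = mn F + c * mn G := by
  have h1 : mn (fun x => F x + c * G x) = mn F + mn (fun x => c * G x) :=
    integral_add (int_cont hF) (int_cont (continuous_const.mul hG))
  have h2 : mn (fun x => c * G x) = c * mn G := integral_const_mul c G
  rw [h1, h2]

theorem cadd {F G : (Fin 4 → ℝ) → ℝ} (hF : Continuous F) (hG : Continuous G) (c : ℝ) :
    Continuous (fun x => F x + c * G x) := hF.add (continuous_const.mul hG)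

/-- the path from `σ` to `A` -/
def p2 (A : Bf) (P Q : Fin 4 → ℝ) (σ : (Fin 4 → ℝ) → Bf) (v : ℝ) (x : Fin 4 → ℝ) : Bf :=
  (1 - v) • σ x + v • A - (v * (1 - v) * (A P Q)⁻¹) • wd (σ x P - A P) (σ x Q - A Q)

theorem p2_apply (A : Bf) (P Q : Fin 4 → ℝ) (σ : (Fin 4 → ℝ) → Bf) (v : ℝ) (x u w : Fin 4 → ℝ) :
    p2 A P Q σ v x u w = (1 - v) * σ x u w + v * A u w - (v * (1 - v) * (A P Q)⁻¹) *
      ((σ x P u - A P u) * (σ x Q w - A Q w) - (σ x Q u - A Q u) * (σ x P w - A P w)) := by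
  unfold p2
  change (1 - v) * σ x u w + v * A u w - (v * (1 - v) * (A P Q)⁻¹) *
    (wd (σ x P - A P) (σ x Q - A Q) u w) = _
  rw [wd_apply]
  rfl

section

variable {A : Bf} {P Q : Fin 4 → ℝ} {σ : (Fin 4 → ℝ) → Bf} (h : InvS A P Q σ)

include h

theorem p2_alt (v : ℝ) (x u w : Fin 4 → ℝ) : p2 A P Q σ v x u w = -(p2 A P Q σ v x w u) := by
  rw [p2_apply, p2_apply, h.alt x u w, altA h u w]
  ring

theorem p2_P (v : ℝ) (x w : Fin 4 → ℝ) :
    p2 A P Q σ v x P w = (1 - v) * σ x P w + v * A P w := by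
  rw [p2_apply, self0 (h.alt x) P, self0 (altA h) P, h.alt x Q P, altA h Q P, const_PQ h]
  ring

theorem p2_Q (v : ℝ) (x w : Fin 4 → ℝ) :
    p2 A P Q σ v x Q w = (1 - v) * σ x Q w + v * A Q w := by
  rw [p2_apply, self0 (h.alt x) Q, self0 (altA h) Q, const_PQ h]
  ring

theorem p2_PQ (v : ℝ) (x : Fin 4 → ℝ) : p2 A P Q σ v x P Q = A P Q := by
  rw [p2_P h, const_PQ h]
  ring

theorem p2_sch (v : ℝ) (x u w : Fin 4 → ℝ) :
    sch (p2 A P Q σ v x) P Q u w = (1 - v) * sch (σ x) P Q u w + v * sch A P Q u w := by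
  unfold sch
  rw [p2_PQ h, p2_P h, p2_P h, p2_Q h, p2_Q h, p2_apply, const_PQ h]
  ring

theorem sch_mean (u w : Fin 4 → ℝ) :
    mn (fun x => sch (σ x) P Q u w) = sch A P Q u w := by
  have hc : ∀ a b : Fin 4 → ℝ, Continuous (fun x => σ x a b) := fun a b =>
    (h.smooth.continuous.clm_apply continuous_const).clm_apply continuous_const
  have hcw : Continuous (fun x => (σ x P - A P) u * (σ x Q - A Q) w -
      (σ x P - A P) w * (σ x Q - A Q) u) := by
    have c1 := (al_smooth h P).continuous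
    have c2 := (al_smooth h Q).continuous
    exact ((c1.clm_apply continuous_const).mul (c2.clm_apply continuous_const)).sub
      ((c1.clm_apply continuous_const).mul (c2.clm_apply continuous_const))
  have e : ∀ x, sch (σ x) P Q u w =
      (((((((A P Q)⁻¹ * (A P u * A Q w - A P w * A Q u)) + 1 * σ x u w) +
        (-((A P Q)⁻¹ * A Q w)) * σ x P u) + (-((A P Q)⁻¹ * A P u)) * σ x Q w) +
        ((A P Q)⁻¹ * A Q u) * σ x P w) + ((A P Q)⁻¹ * A P w) * σ x Q u) +
        (-(A P Q)⁻¹) * ((σ x P - A P) u * (σ x Q - A Q) w -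
          (σ x P - A P) w * (σ x Q - A Q) u) := by
    intro x
    unfold sch
    rw [const_PQ h]
    simp only [ContinuousLinearMap.sub_apply]
    ring
  simp only [e]
  have k0 : Continuous (fun _ : Fin 4 → ℝ => (A P Q)⁻¹ * (A P u * A Q w - A P w * A Q u)) :=
    continuous_const
  have k1 := cadd k0 (hc u w) 1
  have k2 := cadd k1 (hc P u) (-((A P Q)⁻¹ * A Q w))
  have k3 := cadd k2 (hc Q w) (-((A P Q)⁻¹ * A P u))
  have k4 := cadd k3 (hc P w) ((A P Q)⁻¹ * A Q u)
  have k5 := cadd k4 (hc Q u) ((A P Q)⁻¹ * A P w)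
  rw [mn_lin k5 hcw, mn_lin k4 (hc Q u), mn_lin k3 (hc P w), mn_lin k2 (hc Q w),
    mn_lin k1 (hc P u), mn_lin k0 (hc u w), mn_const, wedge_mean h, mean_ev h, mean_ev h,
    mean_ev h, mean_ev h, mean_ev h]
  unfold sch
  ring

theorem p2_mean (v : ℝ) (u w : Fin 4 → ℝ) :
    mn (fun x => p2 A P Q σ v x u w) = A u w := by
  have hc : ∀ a b : Fin 4 → ℝ, Continuous (fun x => σ x a b) := fun a b =>
    (h.smooth.continuous.clm_apply continuous_const).clm_apply continuous_const
  have hcw : Continuous (fun x => (σ x P - A P) u * (σ x Q - A Q) w -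
      (σ x P - A P) w * (σ x Q - A Q) u) := by
    have c1 := (al_smooth h P).continuous
    have c2 := (al_smooth h Q).continuous
    exact ((c1.clm_apply continuous_const).mul (c2.clm_apply continuous_const)).sub
      ((c1.clm_apply continuous_const).mul (c2.clm_apply continuous_const))
  have e : ∀ x, p2 A P Q σ v x u w = ((v * A u w) + (1 - v) * σ x u w) +
        (-(v * (1 - v) * (A P Q)⁻¹)) * ((σ x P - A P) u * (σ x Q - A Q) w -
          (σ x P - A P) w * (σ x Q - A Q) u) := by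
    intro x
    rw [p2_apply]
    simp only [ContinuousLinearMap.sub_apply]
    ring
  simp only [e]
  have k0 : Continuous (fun _ : Fin 4 → ℝ => v * A u w) := continuous_const
  have k1 := cadd k0 (hc u w) (1 - v)
  rw [mn_lin k1 hcw, mn_lin k0 (hc u w), mn_const, wedge_mean h, mean_ev h]
  ring

theorem p2_nondeg (hf : A P Q ≠ 0) {v : ℝ} (hv : v ∈ Icc (0 : ℝ) 1) (x a : Fin 4 → ℝ)
    (ha : ∀ w, p2 A P Q σ v x a w = 0) : a = 0 := by
  have hfx : ∀ y, σ y P Q ≠ 0 := fun y => by rw [const_PQ h]; exact hf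
  obtain ⟨U, W, hU, hfr⟩ := exists_frame (h.alt 0) (hfx 0) (h.nondeg 0)
  have hS : ∀ y, sch (σ y) P Q U W ≠ 0 := fun y =>
    sch_ne' (h.alt y) (hfx y) (h.nondeg y) hU hfr
  have hcont : Continuous (fun y => sch (σ y) P Q U W) := by
    have hc : ∀ a b : Fin 4 → ℝ, Continuous (fun x => σ x a b) := fun a b =>
      (h.smooth.continuous.clm_apply continuous_const).clm_apply continuous_const
    have e : (fun y => sch (σ y) P Q U W) = fun y => σ y U W - (A P Q)⁻¹ *
        (σ y P U * σ y Q W - σ y P W * σ y Q U) := by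
      funext y
      unfold sch
      rw [const_PQ h]
    rw [e]
    exact (hc U W).sub (((hc P U).mul (hc Q W)).sub ((hc P W).mul (hc Q U)) |>.const_mul _)
  have hne : sch (p2 A P Q σ v x) P Q U W ≠ 0 := by
    rw [p2_sch h]
    rcases lt_or_gt_of_ne (hS x) with hx | hx
    · have hall : ∀ y, sch (σ y) P Q U W < 0 := by
        intro y
        by_contra hy
        obtain ⟨z, hz⟩ := mem_range_of_exists_le_of_exists_ge hcont ⟨x, hx.le⟩
          ⟨y, not_lt.1 hy⟩
        exact hS z hz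
      have hm : sch A P Q U W < 0 := by
        rw [← sch_mean h]
        have h1 := mn_pos (N := 4) (F := fun y => -(sch (σ y) P Q U W)) hcont.neg
          (fun y => by have := hall y; linarith)
        have h2 : mn (fun y => -(sch (σ y) P Q U W)) = - mn (fun y => sch (σ y) P Q U W) :=
          integral_neg _
        rw [h2] at h1
        linarith
      have h3 := hv.1
      have h4 := hv.2
      rcases eq_or_lt_of_le h3 with rfl | h5
      · simp only [sub_zero, one_mul, zero_mul, add_zero]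
        exact hx.ne
      · have : v * sch A P Q U W < 0 := mul_neg_of_pos_of_neg h5 hm
        have : (1 - v) * sch (σ x) P Q U W ≤ 0 :=
          mul_nonpos_of_nonneg_of_nonpos (by linarith) hx.le
        linarith
    · have hall : ∀ y, 0 < sch (σ y) P Q U W := by
        intro y
        by_contra hy
        obtain ⟨z, hz⟩ := mem_range_of_exists_le_of_exists_ge hcont ⟨y, not_lt.1 hy⟩
          ⟨x, hx.le⟩
        exact hS z hz
      have hm : 0 < sch A P Q U W := by
        rw [← sch_mean h]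
        exact mn_pos hcont hall
      have h3 := hv.1
      have h4 := hv.2
      rcases eq_or_lt_of_le h3 with rfl | h5
      · simp only [sub_zero, one_mul, zero_mul, add_zero]
        exact hx.ne'
      · have : 0 < v * sch A P Q U W := mul_pos h5 hm
        have : 0 ≤ (1 - v) * sch (σ x) P Q U W := mul_nonneg (by linarith) hx.le
        linarith
  exact nondeg_of_sch (p2_alt h v x) (by rw [p2_PQ h]; exact hf) hfr hne a ha

end

end Pool.Agent.Helper224_t4
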