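import Pool.Agent.Helper224_t4.Fin4

/-!
Pfaffians and paths of linear symplectic forms on `ℝ^4`.
-/

set_option autoImplicit false
set_option maxSynthPendingDepth 3

open Set Filter Topology
open scoped ContDiff

noncomputable section

namespace Pool.Agent.Helper224_t4

/-- basis vectors -/
def eb (i : Fin 4) : Fin 4 → ℝ := Pi.single i 1

/-- the Pfaffian -/
def pf (β : Bf) : ℝ :=
  β (eb 0) (eb 1) * β (eb 2) (eb 3) - β (eb 0) (eb 2) * β (eb 1) (eb 3) +
    β (eb 0) (eb 3) * β (eb 1) (eb 2)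

theorem expand4 (β : Bf) (v w : Fin 4 → ℝ) : β v w = v 0 * β (eb 0) w + v 1 * β (eb 1) w +
    v 2 * β (eb 2) w + v 3 * β (eb 3) w := by
  have e : v = v 0 • eb 0 + v 1 • eb 1 + v 2 • eb 2 + v 3 • eb 3 := by
    funext i
    fin_cases i <;> simp [eb]
  conv_lhs => rw [e]
  simp only [map_add, map_smul, ContinuousLinearMap.add_apply, ContinuousLinearMap.smul_apply,
    smul_eq_mul]

theorem expandR (β : Bf) (v w : Fin 4 → ℝ) : β v w = w 0 * β v (eb 0) + w 1 * β v (eb 1) +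
    w 2 * β v (eb 2) + w 3 * β v (eb 3) := by
  have e : w = w 0 • eb 0 + w 1 • eb 1 + w 2 • eb 2 + w 3 • eb 3 := by
    funext i
    fin_cases i <;> simp [eb]
  conv_lhs => rw [e]
  simp only [map_add, map_smul, smul_eq_mul]

theorem nondeg_of_pf {β : Bf} (h : ∀ u v, β u v = -(β v u)) (hp : pf β ≠ 0) (v : Fin 4 → ℝ)
    (hv : ∀ w, β v w = 0) : v = 0 := by
  have s := fun i => self0 h (eb i)
  have r0 := hv (eb 0)
  have r1 := hv (eb 1)
  have r2 := hv (eb 2)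
  have r3 := hv (eb 3)
  rw [expand4] at r0 r1 r2 r3
  rw [h (eb 1) (eb 0), h (eb 2) (eb 0), h (eb 3) (eb 0), s 0] at r0
  rw [h (eb 2) (eb 1), h (eb 3) (eb 1), s 1] at r1
  rw [h (eb 3) (eb 2), s 2] at r2
  rw [s 3] at r3
  unfold pf at hp
  have k0 : v 0 = 0 := by
    refine (mul_eq_zero.1 (?_ : v 0 * _ = 0)).resolve_right hp
    linear_combination β (eb 2) (eb 3) * r1 - β (eb 1) (eb 3) * r2 + β (eb 1) (eb 2) * r3
  have k1 : v 1 = 0 := by
    refine (mul_eq_zero.1 (?_ : v 1 * _ = 0)).resolve_right hp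
    linear_combination (-β (eb 2) (eb 3)) * r0 + β (eb 0) (eb 3) * r2 - β (eb 0) (eb 2) * r3
  have k2 : v 2 = 0 := by
    refine (mul_eq_zero.1 (?_ : v 2 * _ = 0)).resolve_right hp
    linear_combination β (eb 1) (eb 3) * r0 - β (eb 0) (eb 3) * r1 + β (eb 0) (eb 1) * r3
  have k3 : v 3 = 0 := by
    refine (mul_eq_zero.1 (?_ : v 3 * _ = 0)).resolve_right hp
    linear_combination (-β (eb 1) (eb 2)) * r0 + β (eb 0) (eb 2) * r1 - β (eb 0) (eb 1) * r2
  funext i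
  fin_cases i
  · exact k0
  · exact k1
  · exact k2
  · exact k3

theorem ker_of {β : Bf} (hn : ∀ v, (∀ w, β v w = 0) → v = 0) {v : Fin 4 → ℝ}
    (h0 : β v (eb 0) = 0) (h1 : β v (eb 1) = 0) (h2 : β v (eb 2) = 0) (h3 : β v (eb 3) = 0) :
    v = 0 := hn v fun w => by rw [expandR, h0, h1, h2, h3]; ring

theorem pf_of_nondeg {β : Bf} (h : ∀ u v, β u v = -(β v u))
    (hn : ∀ v, (∀ w, β v w = 0) → v = 0) : pf β ≠ 0 := by
  intro hp
  unfold pf at hp
  have s := fun i => self0 h (eb i)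
  have g10 := h (eb 1) (eb 0)
  have g20 := h (eb 2) (eb 0)
  have g30 := h (eb 3) (eb 0)
  have g21 := h (eb 2) (eb 1)
  have g31 := h (eb 3) (eb 1)
  have g32 := h (eb 3) (eb 2)
  have key0 : (![0, β (eb 2) (eb 3), -β (eb 1) (eb 3), β (eb 1) (eb 2)] : Fin 4 → ℝ) = 0 := by
    apply ker_of hn <;> rw [expand4] <;> simp only [Matrix.cons_val_zero, Matrix.cons_val_one,
      Matrix.cons_val, g10, g20, g30, g21, g31, g32, s 0, s 1, s 2, s 3]
    · linear_combination (-1 : ℝ) * hp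
    · ring
    · ring
    · ring
  have key1 : (![-β (eb 2) (eb 3), 0, β (eb 0) (eb 3), -β (eb 0) (eb 2)] : Fin 4 → ℝ) = 0 := by
    apply ker_of hn <;> rw [expand4] <;> simp only [Matrix.cons_val_zero, Matrix.cons_val_one,
      Matrix.cons_val, g10, g20, g30, g21, g31, g32, s 0, s 1, s 2, s 3]
    · ring
    · linear_combination (-1 : ℝ) * hp
    · ring
    · ring
  have key2 : (![β (eb 1) (eb 3), -β (eb 0) (eb 3), 0, β (eb 0) (eb 1)] : Fin 4 → ℝ) = 0 := by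
    apply ker_of hn <;> rw [expand4] <;> simp only [Matrix.cons_val_zero, Matrix.cons_val_one,
      Matrix.cons_val, g10, g20, g30, g21, g31, g32, s 0, s 1, s 2, s 3]
    · ring
    · ring
    · linear_combination (-1 : ℝ) * hp
    · ring
  have m02 : β (eb 0) (eb 2) = 0 := by
    have := congrFun key1 3
    simpa using this
  have m03 : β (eb 0) (eb 3) = 0 := by
    have := congrFun key1 2
    simpa using this
  have m01 : β (eb 0) (eb 1) = 0 := by
    have := congrFun key2 3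
    simpa using this
  have h0 : eb 0 = 0 := ker_of hn (s 0) m01 m02 m03
  have := congrFun h0 0
  simp [eb] at this

/-- the form with the given self-dual and anti-self-dual parts -/
def wb (i j : Fin 4) : Bf :=
  wd (ContinuousLinearMap.proj (R := ℝ) (φ := fun _ : Fin 4 => ℝ) i)
    (ContinuousLinearMap.proj (R := ℝ) (φ := fun _ : Fin 4 => ℝ) j)

/-- the form with parameters `x` and `y` -/
def fx (x y : Fin 3 → ℝ) : Bf :=
  ((x 0 + y 0) / 2) • wb 0 1 + ((x 0 - y 0) / 2) • wb 2 3 +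
  ((x 1 + y 1) / 2) • wb 0 2 + ((y 1 - x 1) / 2) • wb 1 3 +
  ((x 2 + y 2) / 2) • wb 0 3 + ((x 2 - y 2) / 2) • wb 1 2

theorem fx_cont : Continuous (fun z : (Fin 3 → ℝ) × (Fin 3 → ℝ) => fx z.1 z.2) := by
  unfold fx
  fun_prop

theorem wb_apply (i j : Fin 4) (u v : Fin 4 → ℝ) : wb i j u v = u i * v j - u j * v i := by
  unfold wb
  rw [wd_apply]
  rfl

theorem fx_apply (x y : Fin 3 → ℝ) (u v : Fin 4 → ℝ) : fx x y u v =
    ((x 0 + y 0) / 2) * (u 0 * v 1 - u 1 * v 0) + ((x 0 - y 0) / 2) * (u 2 * v 3 - u 3 * v 2) +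
    ((x 1 + y 1) / 2) * (u 0 * v 2 - u 2 * v 0) + ((y 1 - x 1) / 2) * (u 1 * v 3 - u 3 * v 1) +
    ((x 2 + y 2) / 2) * (u 0 * v 3 - u 3 * v 0) + ((x 2 - y 2) / 2) * (u 1 * v 2 - u 2 * v 1) := by
  unfold fx
  simp only [ContinuousLinearMap.add_apply, ContinuousLinearMap.smul_apply, smul_eq_mul, wb_apply]

theorem fx_alt (x y : Fin 3 → ℝ) (u v : Fin 4 → ℝ) : fx x y u v = -(fx x y v u) := by
  rw [fx_apply, fx_apply]; ring

theorem fx_pf (x y : Fin 3 → ℝ) : pf (fx x y) =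
    ((x 0 ^ 2 + x 1 ^ 2 + x 2 ^ 2) - (y 0 ^ 2 + y 1 ^ 2 + y 2 ^ 2)) / 4 := by
  unfold pf
  simp only [fx_apply]
  simp [eb]
  ring

theorem fx_surj {β : Bf} (h : ∀ u v, β u v = -(β v u)) :
    β = fx ![β (eb 0) (eb 1) + β (eb 2) (eb 3), β (eb 0) (eb 2) - β (eb 1) (eb 3),
        β (eb 0) (eb 3) + β (eb 1) (eb 2)]
      ![β (eb 0) (eb 1) - β (eb 2) (eb 3), β (eb 0) (eb 2) + β (eb 1) (eb 3),
        β (eb 0) (eb 3) - β (eb 1) (eb 2)] := by
  ext u v
  rw [fx_apply, expand4 β u v, expandR β (eb 0) v, expandR β (eb 1) v, expandR β (eb 2) v,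
    expandR β (eb 3) v]
  have s := fun i => self0 h (eb i)
  have g10 := h (eb 1) (eb 0)
  have g20 := h (eb 2) (eb 0)
  have g30 := h (eb 3) (eb 0)
  have g21 := h (eb 2) (eb 1)
  have g31 := h (eb 3) (eb 1)
  have g32 := h (eb 3) (eb 2)
  rw [g10, g20, g30, g21, g31, g32, s 0, s 1, s 2, s 3]
  simp only [Matrix.cons_val_zero, Matrix.cons_val_one, Matrix.cons_val]
  ring

end Pool.Agent.Helper224_t4
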