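import Mathlib

/-!
Symplectic forms on the torus `ℝ^4 / ℤ^4`: the definitions used in the statement of the result.
-/

set_option autoImplicit false

open Set MeasureTheory
open scoped ContDiff

noncomputable section

namespace Pool.Agent.Helper224_t4P

/-- bilinear forms on `ℝ^4` -/
abbrev Bf : Type := (Fin 4 → ℝ) →L[ℝ] (Fin 4 → ℝ) →L[ℝ] ℝ

/-- the number `β (u, v)` -/
def ev (β : Bf) (u v : Fin 4 → ℝ) : ℝ := β u v

/-- smooth forms on `ℝ^4` -/
def Smooth (η : (Fin 4 → ℝ) → Bf) : Prop := ContDiff ℝ ∞ η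

/-- smooth families of forms on `ℝ^4` -/
def SmoothFamily (Ω : ℝ → (Fin 4 → ℝ) → Bf) : Prop :=
  ContDiff ℝ ∞ (fun y : ℝ × (Fin 4 → ℝ) => Ω y.1 y.2)

/-- the derivative of the function `η (v, w)` at `x` in the direction `u` -/
def der (η : (Fin 4 → ℝ) → Bf) (x u v w : Fin 4 → ℝ) : ℝ := fderiv ℝ η x u v w

/-- an integral vector as a real vector -/
def rl (p : Fin 4 → ℤ) : Fin 4 → ℝ := fun i => (p i : ℝ)

/-- The form `η` on the torus `ℝ^4 / ℤ^4` (a `ℤ^4`-periodic form on `ℝ^4`) is symplectic: smooth,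
alternating, closed and nondegenerate; and its mean is `A`: the linear form `A` represents the
class of `η`. -/
structure IsSymp (A : Bf) (η : (Fin 4 → ℝ) → Bf) : Prop where
  smooth : Smooth η
  per : ∀ (x : Fin 4 → ℝ) (n : Fin 4 → ℤ), η (x + rl n) = η x
  alt : ∀ x u v : Fin 4 → ℝ, ev (η x) u v = -ev (η x) v u
  closed : ∀ x u v w : Fin 4 → ℝ, der η x u v w + der η x v w u + der η x w u v = 0
  nondeg : ∀ x v : Fin 4 → ℝ, (∀ w : Fin 4 → ℝ, ev (η x) v w = 0) → v = 0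
  mean : ∀ u v : Fin 4 → ℝ, ∫ x in Icc (0 : Fin 4 → ℝ) 1, ev (η x) u v = ev A u v

/-- For all `x` and `v ≠ 0` there is `w` such that `η (v, w)` is positive at `x` and its integral
over the orbit of `x` under the torus generated by the integral vectors `p` and `q` is positive. -/
def PosOn (p q : Fin 4 → ℤ) (η : (Fin 4 → ℝ) → Bf) : Prop :=
  ∀ x v : Fin 4 → ℝ, v ≠ 0 → ∃ w : Fin 4 → ℝ, 0 < ev (η x) v w ∧
    0 < ∫ s in Icc (0 : Fin 2 → ℝ) 1, ev (η (x + (s 0 • rl p + s 1 • rl q))) v w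

/-- `PosOn p q η` holds for some integral vectors `p` and `q` with `A (p, q) ≠ 0`. -/
def TorusPos (A : Bf) (η : (Fin 4 → ℝ) → Bf) : Prop :=
  ∃ p q : Fin 4 → ℤ, ev A (rl p) (rl q) ≠ 0 ∧ PosOn p q η

end Pool.Agent.Helper224_t4P
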